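import Pool.Agent.Y93.SK.UniqA

set_option autoImplicit false

open Set Filter Topology MeasureTheory Metric

namespace Pool.Agent.Y93.SK

open Pool.Agent.Y5 (E3)
open Pool.Agent.Y303.SK

section alg

variable {ι : Type} {Ω : Set E3} {e : ι → E3 → E3} {w φ : E3 → E3}

theorem CS_zero : CS Ω (fun _ => (0 : E3)) where
  smooth := contDiff_const
  cpt := HasCompactSupport.intro isCompact_empty fun _ _ => rfl
  supp := by
    have : tsupport (fun _ : E3 => (0 : E3)) = ∅ := tsupport_eq_empty_iff.2 rfl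
    rw [this]
    exact empty_subset _
  dv := fun x => by
    unfold dvg
    simp

theorem CS_add {f g : E3 → E3} (hf : CS Ω f) (hg : CS Ω g) : CS Ω (fun x => f x + g x) where
  smooth := hf.smooth.add hg.smooth
  cpt := hf.cpt.add hg.cpt
  supp := (tsupport_add f g).trans (union_subset hf.supp hg.supp)
  dv := fun x => by
    have h1 := hf.dv x
    have h2 := hg.dv x
    unfold dvg at h1 h2 ⊢
    have h3 : fderiv ℝ (fun x => f x + g x) x = fderiv ℝ f x + fderiv ℝ g x :=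
      fderiv_fun_add ((hf.smooth.differentiable (by simp)) x)
        ((hg.smooth.differentiable (by simp)) x)
    simp only [h3, _root_.add_apply, PiLp.add_apply, Finset.sum_add_distrib, h1, h2,
      add_zero]

theorem CS_smul {f : E3 → E3} (c : ℝ) (hf : CS Ω f) : CS Ω (fun x => c • f x) where
  smooth := hf.smooth.const_smul c
  cpt := by
    refine hf.cpt.mono fun x hx => ?_
    rw [Function.mem_support] at hx ⊢
    intro h
    apply hx
    rw [h, smul_zero]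
  supp := by
    refine (closure_mono ?_).trans hf.supp
    intro x hx
    rw [Function.mem_support] at hx ⊢
    intro h
    apply hx
    rw [h, smul_zero]
  dv := fun x => by
    have h1 := hf.dv x
    unfold dvg at h1 ⊢
    have h3 : fderiv ℝ (fun x => c • f x) x = c • fderiv ℝ f x :=
      fderiv_fun_const_smul ((hf.smooth.differentiable (by simp)) x) c
    simp only [h3, _root_.smul_apply, PiLp.smul_apply, smul_eq_mul]
    rw [← Finset.mul_sum, h1, mul_zero]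

/-- finite combinations -/
noncomputable def Pf (e : ι → E3 → E3) (F : Finset ι) (b : ι → ℝ) (x : E3) : E3 :=
  ∑ a ∈ F, b a • e a x

theorem Pf_CS (he : ∀ i, CS Ω (e i)) (F : Finset ι) (b : ι → ℝ) : CS Ω (Pf e F b) := by
  classical
  induction F using Finset.induction_on with
  | empty =>
    have : Pf e ∅ b = fun _ => (0 : E3) := by
      funext x
      unfold Pf
      rw [Finset.sum_empty]
    rw [this]
    exact CS_zero
  | insert a F ha ih =>
    have : Pf e (insert a F) b = fun x => b a • e a x + Pf e F b x := by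
      funext x
      unfold Pf
      rw [Finset.sum_insert ha]
    rw [this]
    exact CS_add (CS_smul (b a) (he a)) ih

theorem int_Pf {G : E3 → E3} (hΩ : IsOpen Ω) (hG : ContinuousOn G Ω) (he : ∀ i, CS Ω (e i))
    (F : Finset ι) (b : ι → ℝ) :
    ∫ x, inner ℝ (G x) (Pf e F b x) = ∑ a ∈ F, b a * ∫ x, inner ℝ (G x) (e a x) := by
  have hi : ∀ a, Integrable (fun x => inner ℝ (G x) (e a x)) := fun a =>
    inn_int hΩ hG (CS.cont (he a)) (he a).supp (he a).cpt
  unfold Pf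
  simp only [inner_sum, real_inner_smul_right]
  rw [integral_finsetSum _ fun a _ => (hi a).const_mul _]
  exact Finset.sum_congr rfl fun a _ => integral_const_mul _ _

theorem ipr_Pf (hΩ : IsOpen Ω) (hw : Continuous w) (he : ∀ i, CS Ω (e i)) (F : Finset ι)
    (b : ι → ℝ) : ipr w (Pf e F b) = ∑ a ∈ F, b a * ipr w (e a) :=
  int_Pf hΩ hw.continuousOn he F b

theorem ipr_comm (f g : E3 → E3) : ipr f g = ipr g f := by
  unfold ipr
  refine integral_congr_ae (Eventually.of_forall fun x => ?_)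
  exact real_inner_comm _ _

theorem ipr_self (f : E3 → E3) : ipr f f = ∫ x, ‖f x‖ ^ 2 := by
  unfold ipr
  refine integral_congr_ae (Eventually.of_forall fun x => ?_)
  exact real_inner_self_eq_norm_sq _

theorem norm_Pf (hΩ : IsOpen Ω) (he : ∀ i, CS Ω (e i))
    (horth : ∀ i j, (i = j → ipr (e i) (e j) = 1) ∧ (i ≠ j → ipr (e i) (e j) = 0))
    (F : Finset ι) (b : ι → ℝ) : ipr (Pf e F b) (Pf e F b) = ∑ a ∈ F, b a ^ 2 := by
  classical
  rw [ipr_Pf hΩ (CS.cont (Pf_CS he F b)) he]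
  refine Finset.sum_congr rfl fun a ha => ?_
  rw [ipr_comm, ipr_Pf hΩ (CS.cont (he a)) he, Finset.sum_eq_single a, (horth a a).1 rfl]
  · ring
  · intro c _ hc
    rw [(horth a c).2 (Ne.symm hc), mul_zero]
  · intro h
    exact absurd ha h

theorem energy (hΩ : IsOpen Ω) (hw : Continuous w) (hwc : HasCompactSupport w)
    (he : ∀ i, CS Ω (e i))
    (horth : ∀ i j, (i = j → ipr (e i) (e j) = 1) ∧ (i ≠ j → ipr (e i) (e j) = 0))
    (F : Finset ι) (b : ι → ℝ) :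
    ∫ x, ‖w x - Pf e F b x‖ ^ 2 =
      ipr w w - 2 * ∑ a ∈ F, b a * ipr w (e a) + ∑ a ∈ F, b a ^ 2 := by
  have hP := Pf_CS he F b
  have i1 := inn_int' hw hw hwc
  have i2 := inn_int' hw (CS.cont hP) hP.cpt
  have i3 := inn_int' (CS.cont hP) (CS.cont hP) hP.cpt
  have e1 : ∀ x, ‖w x - Pf e F b x‖ ^ 2 = (inner ℝ (w x) (w x) -
      2 * inner ℝ (w x) (Pf e F b x)) + inner ℝ (Pf e F b x) (Pf e F b x) := by
    intro x
    rw [norm_sub_sq_real, real_inner_self_eq_norm_sq, real_inner_self_eq_norm_sq]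
  have i12 : Integrable (fun x => inner ℝ (w x) (w x) - 2 * inner ℝ (w x) (Pf e F b x)) :=
    i1.sub (i2.const_mul 2)
  simp only [e1]
  rw [integral_add i12 i3, integral_sub i1 (i2.const_mul 2), integral_const_mul]
  have h1 := ipr_Pf hΩ hw he F b
  have h2 := norm_Pf hΩ he horth F b
  unfold ipr at h1 h2 ⊢
  rw [h1, h2]

theorem best (hΩ : IsOpen Ω) (hw : Continuous w) (hwc : HasCompactSupport w)
    (he : ∀ i, CS Ω (e i))
    (horth : ∀ i j, (i = j → ipr (e i) (e j) = 1) ∧ (i ≠ j → ipr (e i) (e j) = 0))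
    (F : Finset ι) (b : ι → ℝ) :
    ipr w w - ∑ a ∈ F, ipr w (e a) ^ 2 ≤ ∫ x, ‖w x - Pf e F b x‖ ^ 2 := by
  rw [energy hΩ hw hwc he horth]
  have h : 0 ≤ ∑ a ∈ F, (b a - ipr w (e a)) ^ 2 := Finset.sum_nonneg fun a _ => sq_nonneg _
  have h2 : ∑ a ∈ F, (b a - ipr w (e a)) ^ 2 =
      (∑ a ∈ F, b a ^ 2 - 2 * ∑ a ∈ F, b a * ipr w (e a)) + ∑ a ∈ F, ipr w (e a) ^ 2 := by
    rw [Finset.mul_sum, ← Finset.sum_sub_distrib, ← Finset.sum_add_distrib]
    exact Finset.sum_congr rfl fun a _ => by ring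
  linarith

theorem bessel (hΩ : IsOpen Ω) (hw : Continuous w) (hwc : HasCompactSupport w)
    (he : ∀ i, CS Ω (e i))
    (horth : ∀ i j, (i = j → ipr (e i) (e j) = 1) ∧ (i ≠ j → ipr (e i) (e j) = 0))
    (F : Finset ι) :
    ∫ x, ‖w x - Pf e F (fun a => ipr w (e a)) x‖ ^ 2 = ipr w w - ∑ a ∈ F, ipr w (e a) ^ 2 := by
  rw [energy hΩ hw hwc he horth]
  have : ∑ a ∈ F, ipr w (e a) * ipr w (e a) = ∑ a ∈ F, ipr w (e a) ^ 2 :=
    Finset.sum_congr rfl fun a _ => by ring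
  rw [this]
  ring

theorem sq_int {f : E3 → E3} (hf : Continuous f) (hfc : HasCompactSupport f) :
    Integrable (fun x => ‖f x‖ ^ 2) :=
  Continuous.integrable_of_hasCompactSupport (f := fun x => ‖f x‖ ^ 2) (hf.norm.pow 2)
    (hfc.norm.comp_left (g := fun s : ℝ => s ^ 2) (by norm_num))

theorem tri {f g : E3 → E3} (hf : Continuous f) (hfc : HasCompactSupport f) (hg : Continuous g)
    (hgc : HasCompactSupport g) :
    ∫ x, ‖f x - g x‖ ^ 2 ≤ 2 * (∫ x, ‖f x‖ ^ 2) + 2 * ∫ x, ‖g x‖ ^ 2 := by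
  have i1 := sq_int hf hfc
  have i2 := sq_int hg hgc
  rw [← integral_const_mul, ← integral_const_mul, ← integral_add (i1.const_mul 2) (i2.const_mul 2)]
  refine integral_mono (sq_int (hf.sub hg) (hfc.sub hgc)) ((i1.const_mul 2).add (i2.const_mul 2))
    fun x => ?_
  have h1 := norm_sub_le (f x) (g x)
  have h2 : ‖f x - g x‖ ^ 2 ≤ (‖f x‖ + ‖g x‖) ^ 2 := pow_le_pow_left₀ (norm_nonneg _) h1 2
  have h3 : (‖f x‖ + ‖g x‖) ^ 2 ≤ 2 * ‖f x‖ ^ 2 + 2 * ‖g x‖ ^ 2 := by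
    have := sq_nonneg (‖f x‖ - ‖g x‖)
    linarith [this]
  exact h2.trans h3

theorem conv (hΩ : IsOpen Ω) (he : ∀ i, CS Ω (e i))
    (horth : ∀ i j, (i = j → ipr (e i) (e j) = 1) ∧ (i ≠ j → ipr (e i) (e j) = 0))
    (hcompl : ∀ v, CS Ω v → ∀ ε > 0, ∃ (F : Finset ι) (b : ι → ℝ),
      ∫ x, ‖v x - ∑ a ∈ F, b a • e a x‖ ^ 2 < ε)
    (hw : Continuous w) (hwc : HasCompactSupport w)
    (hH : ∀ ε > 0, ∃ φ, CS Ω φ ∧ ∫ x, ‖w x - φ x‖ ^ 2 < ε) (ε : ℝ) (hε : 0 < ε) :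
    ∃ F0 : Finset ι, ∀ F, F0 ⊆ F → ipr w w - ∑ a ∈ F, ipr w (e a) ^ 2 < ε := by
  obtain ⟨φ, hφ, h1⟩ := hH (ε / 4) (by linarith)
  obtain ⟨F0, b, h2⟩ := hcompl φ hφ (ε / 4) (by linarith)
  have hP := Pf_CS he F0 b
  refine ⟨F0, fun F hF => ?_⟩
  have h3 : ∫ x, ‖w x - Pf e F0 b x‖ ^ 2 ≤
      2 * (∫ x, ‖w x - φ x‖ ^ 2) + 2 * ∫ x, ‖Pf e F0 b x - φ x‖ ^ 2 := by
    have h4 := tri (f := fun x => w x - φ x) (g := fun x => Pf e F0 b x - φ x)
      (hw.sub (CS.cont hφ)) (hwc.sub hφ.cpt) ((CS.cont hP).sub (CS.cont hφ)) (hP.cpt.sub hφ.cpt)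
    refine le_trans (le_of_eq ?_) h4
    refine integral_congr_ae (Eventually.of_forall fun x => ?_)
    simp only
    congr 2
    abel
  have h5 : ∫ x, ‖Pf e F0 b x - φ x‖ ^ 2 = ∫ x, ‖φ x - ∑ a ∈ F0, b a • e a x‖ ^ 2 := by
    refine integral_congr_ae (Eventually.of_forall fun x => ?_)
    simp only
    rw [norm_sub_rev]
    rfl
  have h6 := best hΩ hw hwc he horth F0 b
  have h7 : ∑ a ∈ F0, ipr w (e a) ^ 2 ≤ ∑ a ∈ F, ipr w (e a) ^ 2 :=
    Finset.sum_le_sum_of_subset_of_nonneg hF fun a _ _ => sq_nonneg _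
  rw [h5] at h3
  linarith

end alg

end Pool.Agent.Y93.SK
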