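import Pool.Agent.Y303.SK.Stm

set_option autoImplicit false

open Set Filter Topology MeasureTheory Metric

namespace Pool.Agent.Y93.SK

/-! ### The abstract inequality -/

section tm

variable {ι : Type}

theorem skew_sum (σ : ι → ι) (s : ι → ℝ) (hσ : ∀ i, σ (σ i) = i) (hsk : ∀ i, s (σ i) = -s i)
    (c : ι → ℝ) (F : Finset ι) (hF : ∀ i ∈ F, σ i ∈ F) :
    ∑ i ∈ F, s i * c (σ i) * c i = 0 := by
  have h : ∑ i ∈ F, s i * c (σ i) * c i = ∑ i ∈ F, -(s i * c (σ i) * c i) := by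
    refine Finset.sum_nbij' σ σ hF hF (fun i _ => hσ i) (fun i _ => hσ i) fun i _ => ?_
    rw [hsk, hσ]
    ring
  rw [Finset.sum_neg_distrib] at h
  linarith

theorem sq_deriv (σ : ι → ι) (s : ι → ℝ) (hσ : ∀ i, σ (σ i) = i) (hsk : ∀ i, s (σ i) = -s i)
    {A : Set ℝ} {τ : ℝ} (c g : ι → ℝ → ℝ)
    (hd : ∀ i, HasDerivWithinAt (c i) (s i * c (σ i) τ + g i τ) A τ)
    (F : Finset ι) (hF : ∀ i ∈ F, σ i ∈ F) :
    HasDerivWithinAt (fun x => ∑ i ∈ F, c i x ^ 2) (2 * ∑ i ∈ F, c i τ * g i τ) A τ := by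
  have h1 : HasDerivWithinAt (fun x => ∑ i ∈ F, c i x ^ 2)
      (∑ i ∈ F, (2 * c i τ * (s i * c (σ i) τ + g i τ))) A τ := by
    refine HasDerivWithinAt.fun_sum fun i _ => ?_
    have h2 := (hd i).fun_pow 2
    refine h2.congr_deriv ?_
    norm_num
  refine h1.congr_deriv ?_
  have h3 := skew_sum σ s hσ hsk (fun i => c i τ) F hF
  calc ∑ i ∈ F, (2 * c i τ * (s i * c (σ i) τ + g i τ))
      = 2 * ∑ i ∈ F, s i * c (σ i) τ * c i τ + 2 * ∑ i ∈ F, c i τ * g i τ := by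
        rw [Finset.mul_sum, Finset.mul_sum, ← Finset.sum_add_distrib]
        exact Finset.sum_congr rfl fun i _ => by ring
    _ = 2 * ∑ i ∈ F, c i τ * g i τ := by rw [h3]; ring

/-- Grönwall -/
theorem gron {f f' : ℝ → ℝ} {K η b : ℝ} (hK : 0 < K)
    (hd : ∀ x ∈ Icc 0 b, HasDerivWithinAt f (f' x) (Icc 0 b) x) (h0 : f 0 ≤ 0)
    (hb : ∀ x ∈ Icc 0 b, f' x ≤ K * f x + η) (x : ℝ) (hx : x ∈ Icc 0 b) :
    f x ≤ η / K * (Real.exp (K * x) - 1) := by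
  have h1 := le_gronwallBound_of_liminf_deriv_right_le (f := f) (f' := f') (δ := 0) (K := K)
    (ε := η) (a := 0) (b := b) (fun x hx => (hd x hx).continuousWithinAt)
    (fun x hx r hr => by
      have h2 : HasDerivWithinAt f (f' x) (Ici x) x := by
        refine (hd x ⟨hx.1, hx.2.le⟩).mono_of_mem_nhdsWithin ?_
        exact mem_of_superset (Icc_mem_nhdsGE hx.2) (Icc_subset_Icc_left hx.1)
      exact h2.liminf_right_slope_le hr)
    h0 (fun x hx => hb x ⟨hx.1, hx.2.le⟩) x hx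
  rw [gronwallBound_of_K_ne_0 hK.ne'] at h1
  simp only [sub_zero, zero_mul, zero_add] at h1
  exact h1

/-- vanishing -/
theorem zero_of_le {w R : ℝ} (hw : 0 ≤ w) (hR : 0 ≤ R)
    (h : ∀ δ : ℝ, 0 < δ → δ ≤ 1 → w ≤ δ * R) : w = 0 := by
  by_contra hne
  have hpos : 0 < w := lt_of_le_of_ne hw (Ne.symm hne)
  have hk : 0 < 2 * (R + 1) := by linarith
  have h1 := h (min 1 (w / (2 * (R + 1)))) (lt_min one_pos (div_pos hpos hk)) (min_le_left _ _)
  have h2 : min 1 (w / (2 * (R + 1))) * R ≤ w / (2 * (R + 1)) * R :=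
    mul_le_mul_of_nonneg_right (min_le_right _ _) hR
  have h3 : w / (2 * (R + 1)) * R = (w / 2) * (R / (R + 1)) := by
    field_simp
  have h4 : R / (R + 1) ≤ 1 := by
    rw [div_le_one (by linarith)]
    linarith
  have h5 : (w / 2) * (R / (R + 1)) ≤ (w / 2) * 1 := mul_le_mul_of_nonneg_left h4 (by linarith)
  linarith

theorem abs_uniq (σ : ι → ι) (s : ι → ℝ) (hσ : ∀ i, σ (σ i) = i) (hsk : ∀ i, s (σ i) = -s i)
    {b M C V B : ℝ} (hb : 0 ≤ b) (hM : 0 ≤ M) (hC : 0 ≤ C) (hV : 0 ≤ V) (c g : ι → ℝ → ℝ)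
    (W : ℝ → ℝ) (hB : ∀ τ ∈ Icc 0 b, W τ ≤ B)
    (hd : ∀ i, ∀ τ ∈ Icc 0 b, HasDerivWithinAt (c i) (s i * c (σ i) τ + g i τ) (Icc 0 b) τ)
    (h0 : ∀ i, c i 0 = 0)
    (hle : ∀ τ ∈ Icc 0 b, ∀ F : Finset ι, ∑ i ∈ F, c i τ ^ 2 ≤ W τ)
    (hcv : ∀ τ ∈ Icc 0 b, ∀ ε > 0, ∃ F0 : Finset ι, ∀ F, F0 ⊆ F → W τ - ∑ i ∈ F, c i τ ^ 2 < ε)
    (h1 : ∀ τ ∈ Icc 0 b, ∀ F : Finset ι,
      |∑ i ∈ F, c i τ * g i τ| ≤ C * (V + ∑ i ∈ F, c i τ ^ 2))
    (h2 : ∀ τ ∈ Icc 0 b, ∀ F : Finset ι, ∀ δ : ℝ, 0 < δ →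
      ∑ i ∈ F, c i τ * g i τ ≤ M * W τ + C * (δ * V + δ⁻¹ * (W τ - ∑ i ∈ F, c i τ ^ 2))) :
    ∀ τ ∈ Icc 0 b, W τ = 0 := by
  classical
  -- invariant hulls
  obtain ⟨Fh, hFh⟩ : ∃ Fh : Finset ι → Finset ι, Fh = fun F => F ∪ F.image σ := ⟨_, rfl⟩
  have hsub : ∀ F, F ⊆ Fh F := fun F => by rw [hFh]; exact Finset.subset_union_left
  have hinv : ∀ F, ∀ i ∈ Fh F, σ i ∈ Fh F := by
    intro F i hi
    rw [hFh] at hi ⊢
    simp only [Finset.mem_union, Finset.mem_image] at hi ⊢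
    rcases hi with hi | ⟨j, hj, rfl⟩
    · exact Or.inr ⟨i, hi, rfl⟩
    · exact Or.inl (by rw [hσ]; exact hj)
  have hmon : ∀ F G, F ⊆ G → Fh F ⊆ Fh G := by
    intro F G h
    rw [hFh]
    exact Finset.union_subset_union h (Finset.image_subset_image h)
  obtain ⟨f, hf⟩ : ∃ f : Finset ι → ℝ → ℝ, f = fun F τ => ∑ i ∈ Fh F, c i τ ^ 2 := ⟨_, rfl⟩
  have hfx : ∀ F τ, f F τ = ∑ i ∈ Fh F, c i τ ^ 2 := fun F τ => by rw [hf]
  have hW0 : ∀ τ ∈ Icc 0 b, 0 ≤ W τ := by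
    intro τ hτ
    have := hle τ hτ ∅
    rwa [Finset.sum_empty] at this
  have hB0 : 0 ≤ B := (hW0 0 ⟨le_rfl, hb⟩).trans (hB 0 ⟨le_rfl, hb⟩)
  have hfd : ∀ F, ∀ τ ∈ Icc 0 b,
      HasDerivWithinAt (f F) (2 * ∑ i ∈ Fh F, c i τ * g i τ) (Icc 0 b) τ := by
    intro F τ hτ
    have := sq_deriv σ s hσ hsk c g (fun i => hd i τ hτ) (Fh F) (hinv F)
    rw [hf]
    exact this
  have hlip : ∀ F, ∀ x ∈ Icc 0 b, ∀ y ∈ Icc 0 b,
      ‖f F y - f F x‖ ≤ (2 * (C * (V + B))) * ‖y - x‖ := by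
    intro F x hx y hy
    refine Convex.norm_image_sub_le_of_norm_hasDerivWithin_le (fun τ hτ => hfd F τ hτ)
      (fun τ hτ => ?_) (convex_Icc 0 b) hx hy
    rw [norm_mul, Real.norm_eq_abs, Real.norm_eq_abs, abs_two]
    refine mul_le_mul_of_nonneg_left ?_ (by norm_num)
    refine (h1 τ hτ (Fh F)).trans (mul_le_mul_of_nonneg_left ?_ hC)
    exact add_le_add le_rfl ((hle τ hτ _).trans (hB τ hτ))
  have htend : ∀ τ ∈ Icc 0 b, Tendsto (fun F => f F τ) atTop (𝓝 (W τ)) := by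
    intro τ hτ
    rw [Metric.tendsto_atTop]
    intro ε hε
    obtain ⟨F0, hF0⟩ := hcv τ hτ ε hε
    refine ⟨F0, fun F hF => ?_⟩
    have h3 := hF0 (Fh F) ((show F0 ⊆ F from hF).trans (hsub F))
    have h4 := hle τ hτ (Fh F)
    rw [← hfx] at h3 h4
    rw [Real.dist_eq, abs_sub_comm, abs_of_nonneg (by linarith)]
    exact h3
  have hWl : ∀ x ∈ Icc 0 b, ∀ y ∈ Icc 0 b, ‖W y - W x‖ ≤ (2 * (C * (V + B))) * ‖y - x‖ := by
    intro x hx y hy
    refine le_of_tendsto ((htend y hy).sub (htend x hx)).norm ?_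
    exact Eventually.of_forall fun F => hlip F x hx y hy
  have hL0 : 0 ≤ 2 * (C * (V + B)) := by positivity
  have hWc : ContinuousOn W (Icc 0 b) := by
    have h5 : LipschitzOnWith ⟨2 * (C * (V + B)), hL0⟩ W (Icc 0 b) := by
      refine LipschitzOnWith.of_dist_le_mul fun x hx y hy => ?_
      rw [dist_eq_norm, dist_eq_norm]
      exact hWl y hy x hx
    exact h5.continuousOn
  have hunif : TendstoUniformlyOn f W atTop (Icc 0 b) := by
    refine Monotone.tendstoUniformlyOn_of_forall_tendsto isCompact_Icc ?_ ?_ hWc htend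
    · exact fun F τ hτ => (hfd F τ hτ).continuousWithinAt
    · intro τ _ F G hFG
      simp only [hfx]
      exact Finset.sum_le_sum_of_subset_of_nonneg (hmon F G hFG) fun i _ _ => sq_nonneg _
  intro τ hτ
  -- constants
  obtain ⟨K, hKdef⟩ : ∃ K : ℝ, K = 2 * M + 1 := ⟨_, rfl⟩
  have hK : 0 < K := by rw [hKdef]; linarith
  obtain ⟨R, hRdef⟩ : ∃ R : ℝ, R = 2 * M + 2 * (C * (V + 1)) := ⟨_, rfl⟩
  have hCV : 0 ≤ C * (V + 1) := mul_nonneg hC (by linarith)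
  have hR : 0 ≤ R := by rw [hRdef]; linarith
  have hE : 0 ≤ Real.exp (K * τ) - 1 := by
    have := Real.add_one_le_exp (K * τ)
    have h6 : 0 ≤ K * τ := mul_nonneg hK.le hτ.1
    linarith
  refine zero_of_le (R := R / K * (Real.exp (K * τ) - 1) + 1) (hW0 τ hτ)
    (add_nonneg (mul_nonneg (div_nonneg hR hK.le) hE) zero_le_one) fun δ hδ hδ1 => ?_
  have hδ2 : 0 < δ ^ 2 := by positivity
  have hδδ : δ ^ 2 ≤ δ := by
    rw [sq]
    exact mul_le_of_le_one_right hδ.le hδ1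
  obtain ⟨F, hF⟩ := (Metric.tendstoUniformlyOn_iff.1 hunif (δ ^ 2) hδ2).exists
  have hF' : ∀ x ∈ Icc 0 b, W x ≤ f F x + δ ^ 2 := by
    intro x hx
    have := hF x hx
    rw [Real.dist_eq] at this
    have h7 := le_abs_self (W x - f F x)
    linarith
  have hG := gron (f := f F) (η := δ * R) hK (hfd F) (by
      rw [hfx]
      refine le_of_eq (Finset.sum_eq_zero fun i _ => ?_)
      rw [h0]
      norm_num)
    (fun x hx => by
      have h8 := h2 x hx (Fh F) δ hδ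
      rw [← hfx] at h8
      have h9 := hF' x hx
      have h10 : M * W x ≤ M * (f F x + δ) :=
        mul_le_mul_of_nonneg_left (by linarith) hM
      have h11 : δ⁻¹ * (W x - f F x) ≤ δ := by
        have h12 : δ⁻¹ * (W x - f F x) ≤ δ⁻¹ * δ ^ 2 :=
          mul_le_mul_of_nonneg_left (by linarith) (inv_nonneg.2 hδ.le)
        have h13 : δ⁻¹ * δ ^ 2 = δ := by field_simp
        linarith
      have h14 : C * (δ * V + δ⁻¹ * (W x - f F x)) ≤ C * (δ * V + δ) :=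
        mul_le_mul_of_nonneg_left (by linarith) hC
      have h15 : 0 ≤ f F x := by
        rw [hfx]
        exact Finset.sum_nonneg fun i _ => sq_nonneg _
      have h16 : 2 * (M * (f F x + δ) + C * (δ * V + δ)) + f F x = K * f F x + δ * R := by
        rw [hKdef, hRdef]
        ring
      linarith) τ hτ
  have h17 := hF' τ hτ
  have h18 : δ * R / K * (Real.exp (K * τ) - 1) + δ =
      δ * (R / K * (Real.exp (K * τ) - 1) + 1) := by ring
  linarith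

end tm

end Pool.Agent.Y93.SK
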