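import Pool.Agent.Y93.SK.UniqC
import Pool.Agent.Y93.SK.UniqD
import Pool.Agent.Y93.SK.UniqE

/-!
Project SK: uniqueness of the classical solutions (S_UNIQ).
-/

set_option autoImplicit false

open Set Filter Topology MeasureTheory Metric

namespace Pool.Agent.Y93.SK

open Pool.Agent.Y5 (E3)
open Pool.Agent.Y303.SK

theorem SolD.fld {ι : Type} {Ω : Set E3} {ν : ℝ} {e : ι → E3 → E3} {σ : ι → ι} {s : ι → ℝ}
    {T : ℝ} {u : ℝ → E3 → E3} (h : SolD Ω ν e σ s T u) {T' : ℝ} (hT' : T' < T) {M : ℝ}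
    (hM : ∀ t ∈ Icc 0 T', ∀ x ∈ Ω,
      ‖u t x‖ ≤ M ∧ ‖fderiv ℝ (u t) x‖ ≤ M ∧ ‖fderiv ℝ (fderiv ℝ (u t)) x‖ ≤ M)
    {M' : ℝ} (hMM : M ≤ M') (t : ℝ) (ht : t ∈ Icc 0 T') : Fld Ω M' (u t) where
  cont := h.cont t ⟨ht.1, ht.2.trans_lt hT'⟩
  zero := h.zero t ⟨ht.1, ht.2.trans_lt hT'⟩
  c2 := h.c2 t ⟨ht.1, ht.2.trans_lt hT'⟩
  inH := h.inH t ⟨ht.1, ht.2.trans_lt hT'⟩
  bd := fun x hx => ⟨(hM t ht x hx).1.trans hMM, (hM t ht x hx).2.1.trans hMM,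
    (hM t ht x hx).2.2.trans hMM⟩

theorem w_inH {Ω : Set E3} {M : ℝ} {u v : E3 → E3} (hb : Bornology.IsBounded Ω)
    (hu : Fld Ω M u) (hv : Fld Ω M v) :
    ∀ ε > 0, ∃ φ, CS Ω φ ∧ ∫ x, ‖(u x - v x) - φ x‖ ^ 2 < ε := by
  intro ε hε
  obtain ⟨φ, hφ, h1⟩ := hu.inH.2 (ε / 4) (by linarith)
  obtain ⟨ψ, hψ, h2⟩ := hv.inH.2 (ε / 4) (by linarith)
  refine ⟨fun x => φ x + (-1 : ℝ) • ψ x, CS_add hφ (CS_smul (-1) hψ), ?_⟩
  have huc := cpt_of_zero hb hu.zero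
  have hvc := cpt_of_zero hb hv.zero
  have h3 := tri (f := fun x => u x - φ x) (g := fun x => v x - ψ x)
    (hu.cont.sub (CS.cont hφ)) (huc.sub hφ.cpt) (hv.cont.sub (CS.cont hψ)) (hvc.sub hψ.cpt)
  have h4 : ∫ x, ‖(u x - v x) - (φ x + (-1 : ℝ) • ψ x)‖ ^ 2 =
      ∫ x, ‖(u x - φ x) - (v x - ψ x)‖ ^ 2 := by
    refine integral_congr_ae (Eventually.of_forall fun x => ?_)
    simp only
    congr 2
    rw [neg_one_smul]
    abel
  rw [h4]
  linarith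

theorem ipr_sub {Ω : Set E3} {u v φ : E3 → E3} (hu : Continuous u) (hv : Continuous v)
    (hφ : CS Ω φ) : ipr u φ - ipr v φ = ipr (fun x => u x - v x) φ := by
  unfold ipr
  rw [← integral_sub (inn_int' hu (CS.cont hφ) hφ.cpt) (inn_int' hv (CS.cont hφ) hφ.cpt)]
  refine integral_congr_ae (Eventually.of_forall fun x => ?_)
  simp only
  rw [inner_sub_left]

/-- the norm is bounded -/
theorem W_bd {Ω : Set E3} {M : ℝ} {u v : E3 → E3} (hb : Bornology.IsBounded Ω)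
    (hu : Fld Ω M u) (hv : Fld Ω M v) :
    ipr (fun x => u x - v x) (fun x => u x - v x) ≤ (2 * M) ^ 2 * volume.real Ω := by
  rw [ipr_self]
  have h1 : ∫ x, ‖u x - v x‖ ^ 2 = ∫ x in Ω, ‖u x - v x‖ ^ 2 := by
    rw [setIntegral_eq_integral_of_forall_compl_eq_zero]
    intro x hx
    rw [w_zero hu hv x hx]
    norm_num
  rw [h1]
  have h2 := norm_setIntegral_le_of_norm_le_const (μ := (volume : Measure E3)) (s := Ω)
    (f := fun x => ‖u x - v x‖ ^ 2) (C := (2 * M) ^ 2) (vfin hb) (fun x hx => by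
      rw [Real.norm_eq_abs, abs_of_nonneg (by positivity)]
      refine pow_le_pow_left₀ (norm_nonneg _) ?_ 2
      refine (norm_sub_le _ _).trans ?_
      have := (hu.bd x hx).1
      have := (hv.bd x hx).1
      linarith)
  exact (le_abs_self _).trans h2

/-- Uniqueness. -/
theorem t_UNIQ (hs : S_SGN) : S_UNIQ := by
  intro Ω ν ι e σ s T u v hΩ hb hν hE hu hv h0 t ht
  obtain ⟨T', hT'⟩ : ∃ T' : ℝ, T' = (t + T) / 2 := ⟨_, rfl⟩
  have ht1 : t < T := ht.2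
  have ht2 : t ≤ T' := by rw [hT']; linarith
  have ht3 : T' < T := by rw [hT']; linarith
  have ht4 : 0 ≤ T' := ht.1.trans ht2
  obtain ⟨Mu, hMu⟩ := hu.bdd T' ht3
  obtain ⟨Mv, hMv⟩ := hv.bdd T' ht3
  obtain ⟨M, hMdef⟩ : ∃ M : ℝ, M = max (max Mu Mv) 0 := ⟨_, rfl⟩
  have hM : 0 ≤ M := by rw [hMdef]; exact le_max_right _ _
  have hMuM : Mu ≤ M := by rw [hMdef]; exact (le_max_left _ _).trans (le_max_left _ _)
  have hMvM : Mv ≤ M := by rw [hMdef]; exact (le_max_right _ _).trans (le_max_left _ _)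
  have fu : ∀ τ ∈ Icc 0 T', Fld Ω M (u τ) := SolD.fld hu ht3 hMu hMuM
  have fv : ∀ τ ∈ Icc 0 T', Fld Ω M (v τ) := SolD.fld hv ht3 hMv hMvM
  have he := hE.field
  have hor := hE.orth
  obtain ⟨c, hc⟩ : ∃ c : ι → ℝ → ℝ, c = fun i τ => ipr (u τ) (e i) - ipr (v τ) (e i) :=
    ⟨_, rfl⟩
  have hcx : ∀ i, ∀ τ ∈ Icc 0 T', c i τ = ipr (fun x => u τ x - v τ x) (e i) := by
    intro i τ hτ
    rw [hc]
    exact ipr_sub (fu τ hτ).cont (fv τ hτ).cont (he i)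
  have hwc : ∀ τ ∈ Icc 0 T', Continuous (fun x => u τ x - v τ x) := fun τ hτ =>
    w_cont (fu τ hτ) (fv τ hτ)
  have hwp : ∀ τ ∈ Icc 0 T', HasCompactSupport (fun x => u τ x - v τ x) := fun τ hτ =>
    cpt_of_zero hb (w_zero (fu τ hτ) (fv τ hτ))
  have hC : 0 ≤ 6 * ν * M + 2 * M * M :=
    add_nonneg (mul_nonneg (by linarith) hM) (mul_nonneg (by linarith) hM)
  have hV : 0 ≤ volume.real Ω := measureReal_nonneg
  have hsum : ∀ τ ∈ Icc 0 T', ∀ F : Finset ι,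
      ∑ i ∈ F, c i τ ^ 2 = ∑ i ∈ F, ipr (fun x => u τ x - v τ x) (e i) ^ 2 := fun τ hτ F =>
    Finset.sum_congr rfl fun i _ => by rw [hcx i τ hτ]
  have hPf : ∀ τ ∈ Icc 0 T', ∀ F : Finset ι, ∫ x, ‖Pf e F (fun i => c i τ) x - (u τ x - v τ x)‖ ^ 2
      = ipr (fun x => u τ x - v τ x) (fun x => u τ x - v τ x) - ∑ i ∈ F, c i τ ^ 2 := by
    intro τ hτ F
    have h5 := bessel (w := fun x => u τ x - v τ x) hΩ (hwc τ hτ) (hwp τ hτ) he hor F
    rw [hsum τ hτ F, ← h5]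
    refine integral_congr_ae (Eventually.of_forall fun x => ?_)
    simp only
    rw [norm_sub_rev]
    have h6 : (fun i => c i τ) = fun a => ipr (fun x => u τ x - v τ x) (e a) :=
      funext fun i => hcx i τ hτ
    rw [h6]
  have hGs : ∀ τ ∈ Icc 0 T', ∀ F : Finset ι,
      ∑ i ∈ F, c i τ * ∫ x, inner ℝ (Gf ν (u τ) (v τ) x) (e i x) =
        ∫ x, inner ℝ (Gf ν (u τ) (v τ) x) (Pf e F (fun i => c i τ) x) := fun τ hτ F =>
    (int_Pf hΩ (Gf_cont hΩ ν (fu τ hτ).c2 (fv τ hτ).c2) he F (fun i => c i τ)).symm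
  have main := abs_uniq σ s hE.inv hE.skew ht4 hM hC hV c
    (fun i τ => ∫ x, inner ℝ (Gf ν (u τ) (v τ) x) (e i x))
    (fun τ => ipr (fun x => u τ x - v τ x) (fun x => u τ x - v τ x))
    (B := (2 * M) ^ 2 * volume.real Ω) (fun τ hτ => W_bd hb (fu τ hτ) (fv τ hτ))
    (fun i τ hτ => by
      have hτ' : τ ∈ Ico 0 T := ⟨hτ.1, hτ.2.trans_lt ht3⟩
      have h7 := ((hu.eqn i τ hτ').sub (hv.eqn i τ hτ')).mono
        (fun y hy => ⟨hy.1, hy.2.trans_lt ht3⟩ : Icc 0 T' ⊆ Ico 0 T)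
      have h8 := gform hΩ ν (fu τ hτ).c2 (fv τ hτ).c2 (he i)
      rw [hc]
      refine h7.congr_deriv ?_
      simp only
      rw [← h8]
      ring)
    (fun i => by
      rw [hc]
      simp only
      rw [h0, sub_self])
    (fun τ hτ F => by
      have h9 := hPf τ hτ F
      have h10 : 0 ≤ ∫ x, ‖Pf e F (fun i => c i τ) x - (u τ x - v τ x)‖ ^ 2 :=
        integral_nonneg fun x => by positivity
      linarith)
    (fun τ hτ ε hε => by
      obtain ⟨F0, hF0⟩ := conv (w := fun x => u τ x - v τ x) hΩ he hor hE.compl (hwc τ hτ)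
        (hwp τ hτ) (w_inH hb (fu τ hτ) (fv τ hτ)) ε hε
      refine ⟨F0, fun F hF => ?_⟩
      have := hF0 F hF
      rw [← hsum τ hτ F] at this
      exact this)
    (fun τ hτ F => by
      have h11 := key_abs hΩ hb hν hM (fu τ hτ) (fv τ hτ) (Pf_CS he F (fun i => c i τ))
      rw [hGs τ hτ F]
      refine h11.trans (le_of_eq ?_)
      have h12 := norm_Pf hΩ he hor F (fun i => c i τ)
      rw [ipr_self] at h12
      rw [h12])
    (fun τ hτ F δ hδ => by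
      have h13 := key hs hΩ hb hν hM (fu τ hτ) (fv τ hτ) (Pf_CS he F (fun i => c i τ)) hδ
      rw [hGs τ hτ F]
      refine h13.trans (le_of_eq ?_)
      rw [hPf τ hτ F, ipr_self])
    t ⟨ht.1, ht2⟩
  have htt : t ∈ Icc 0 T' := ⟨ht.1, ht2⟩
  rw [ipr_self, integral_eq_zero_iff_of_nonneg (fun x => by positivity)
    (sq_int (hwc t htt) (hwp t htt))] at main
  have h14 : (fun x => ‖u t x - v t x‖ ^ 2) = fun _ => (0 : ℝ) :=
    (Continuous.ae_eq_iff_eq (μ := (volume : Measure E3)) ((hwc t htt).norm.pow 2)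
      continuous_const).1 main
  funext x
  have h15 := congrFun h14 x
  exact sub_eq_zero.1 (norm_eq_zero.1 (pow_eq_zero_iff (two_ne_zero)|>.1 h15))

end Pool.Agent.Y93.SK
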