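import Pool.Agent.Y93.SK.UniqR

/-!
Project SKX: uniqueness in `ℝ³` (S_UNIQR).
-/

set_option autoImplicit false

open Set Filter Topology MeasureTheory Metric

namespace Pool.Agent.Y93.SK

open Pool.Agent.Y5 (E3)
open Pool.Agent.Y303.SK

/-! ### Solutions at a fixed time -/

/-- the properties of a solution at a fixed time -/
structure FR (M : ℝ) (u : E3 → E3) : Prop where
  h2 : H2 u
  dv : ∀ x, dvg u x = 0
  axi : Axi u
  b0 : ∀ x, ‖u x‖ ≤ M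
  b1 : ∀ x, ‖fderiv ℝ u x‖ ≤ M
  s0 : ∫ x, ‖u x‖ ^ 2 ≤ M
  s1 : ∫ x, ‖fderiv ℝ u x‖ ^ 2 ≤ M
  s2 : ∫ x, ‖fderiv ℝ (fderiv ℝ u) x‖ ^ 2 ≤ M

theorem nit2 (u : E3 → E3) (x : E3) :
    ‖iteratedFDeriv ℝ 2 u x‖ = ‖fderiv ℝ (fderiv ℝ u) x‖ := by
  have h := norm_iteratedFDeriv_fderiv (𝕜 := ℝ) (f := u) (x := x) (n := 1)
  rw [norm_iteratedFDeriv_one] at h
  exact h.symm

section fr

variable {u v w φ : E3 → E3} {M ν : ℝ}

theorem lap_s (h : H2 w) : ∫ x, ‖Lap w x‖ ^ 2 ≤ 9 * ∫ x, ‖fderiv ℝ (fderiv ℝ w) x‖ ^ 2 := by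
  rw [← integral_const_mul]
  refine integral_mono h.lapi (h.i2.const_mul 9) fun x => ?_
  change ‖Lap w x‖ ^ 2 ≤ 9 * ‖fderiv ℝ (fderiv ℝ w) x‖ ^ 2
  have h1 : ‖Lap w x‖ ^ 2 ≤ (3 * ‖fderiv ℝ (fderiv ℝ w) x‖) ^ 2 :=
    pow_le_pow_left₀ (norm_nonneg _) (lap_norm w x) 2
  refine h1.trans (le_of_eq ?_)
  ring

theorem FR.adv (h : FR M u) : Continuous (fun x => fderiv ℝ u x (u x)) ∧
    Integrable (fun x => ‖fderiv ℝ u x (u x)‖ ^ 2) ∧
    ∫ x, ‖fderiv ℝ u x (u x)‖ ^ 2 ≤ M ^ 2 * M := by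
  have hc : Continuous (fun x => fderiv ℝ u x (u x)) := h.h2.c1.clm_apply h.h2.c0
  have hb : ∀ x, ‖fderiv ℝ u x (u x)‖ ^ 2 ≤ M ^ 2 * ‖fderiv ℝ u x‖ ^ 2 := by
    intro x
    have h1 : ‖fderiv ℝ u x (u x)‖ ≤ M * ‖fderiv ℝ u x‖ := by
      refine (ContinuousLinearMap.le_opNorm _ _).trans ?_
      rw [mul_comm]
      exact mul_le_mul_of_nonneg_right (h.b0 x) (norm_nonneg _)
    refine (pow_le_pow_left₀ (norm_nonneg _) h1 2).trans (le_of_eq ?_)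
    ring
  have hi : Integrable (fun x => ‖fderiv ℝ u x (u x)‖ ^ 2) := by
    refine (h.h2.i1.const_mul (M ^ 2)).mono' (hc.norm.pow 2).aestronglyMeasurable
      (Eventually.of_forall fun x => ?_)
    rw [Real.norm_of_nonneg (sq_nonneg _)]
    exact hb x
  refine ⟨hc, hi, ?_⟩
  have h2 : ∫ x, ‖fderiv ℝ u x (u x)‖ ^ 2 ≤ ∫ x, M ^ 2 * ‖fderiv ℝ u x‖ ^ 2 :=
    integral_mono hi (h.h2.i1.const_mul (M ^ 2)) hb
  rw [integral_const_mul] at h2
  exact h2.trans (mul_le_mul_of_nonneg_left h.s1 (sq_nonneg _))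

theorem Gf_l2 (hu : FR M u) (hv : FR M v) : Continuous (Gf ν u v) ∧
    Integrable (fun x => ‖Gf ν u v x‖ ^ 2) ∧
    ∫ x, ‖Gf ν u v x‖ ^ 2 ≤ 72 * ν ^ 2 * M + 8 * M ^ 3 := by
  obtain ⟨ac, ai, as⟩ := hu.adv
  obtain ⟨bc, bi, bs⟩ := hv.adv
  have lc : Continuous (fun x => Lap u x - Lap v x) := hu.h2.lapc.sub hv.h2.lapc
  have li : Integrable (fun x => ‖Lap u x - Lap v x‖ ^ 2) :=
    l2sub hu.h2.lapc hv.h2.lapc hu.h2.lapi hv.h2.lapi
  have ls := l2tri hu.h2.lapc hv.h2.lapc hu.h2.lapi hv.h2.lapi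
  have nc : Continuous (fun x => ν • (Lap u x - Lap v x)) := lc.const_smul ν
  have ne : (fun x => ‖ν • (Lap u x - Lap v x)‖ ^ 2) =
      fun x => ν ^ 2 * ‖Lap u x - Lap v x‖ ^ 2 := by
    funext x
    rw [norm_smul, mul_pow, Real.norm_eq_abs, sq_abs]
  have ni : Integrable (fun x => ‖ν • (Lap u x - Lap v x)‖ ^ 2) := by
    rw [ne]
    exact li.const_mul _
  have dc : Continuous (fun x => fderiv ℝ u x (u x) - fderiv ℝ v x (v x)) := ac.sub bc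
  have di : Integrable (fun x => ‖fderiv ℝ u x (u x) - fderiv ℝ v x (v x)‖ ^ 2) :=
    l2sub ac bc ai bi
  have ds := l2tri ac bc ai bi
  have gs := l2tri nc dc ni di
  refine ⟨nc.sub dc, l2sub nc dc ni di, ?_⟩
  have h1 : ∫ x, ‖ν • (Lap u x - Lap v x)‖ ^ 2 = ν ^ 2 * ∫ x, ‖Lap u x - Lap v x‖ ^ 2 := by
    rw [ne, integral_const_mul]
  have h2 : ∫ x, ‖Lap u x‖ ^ 2 ≤ 9 * M :=
    (lap_s hu.h2).trans (mul_le_mul_of_nonneg_left hu.s2 (by norm_num))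
  have h3 : ∫ x, ‖Lap v x‖ ^ 2 ≤ 9 * M :=
    (lap_s hv.h2).trans (mul_le_mul_of_nonneg_left hv.s2 (by norm_num))
  have h4 : ∫ x, ‖Lap u x - Lap v x‖ ^ 2 ≤ 36 * M := by linarith
  have h5 : ν ^ 2 * ∫ x, ‖Lap u x - Lap v x‖ ^ 2 ≤ ν ^ 2 * (36 * M) :=
    mul_le_mul_of_nonneg_left h4 (sq_nonneg _)
  have h6 : M ^ 2 * M = M ^ 3 := by ring
  have h7 : 2 * (ν ^ 2 * (36 * M)) = 72 * ν ^ 2 * M := by ring
  rw [h1] at gs
  rw [h6] at as bs
  have h8 : ∫ x, ‖Gf ν u v x‖ ^ 2 = ∫ x, ‖ν • (Lap u x - Lap v x) -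
      (fderiv ℝ u x (u x) - fderiv ℝ v x (v x))‖ ^ 2 := rfl
  rw [h8]
  linarith

/-- the main term -/
theorem main_termR (hν : 0 < ν) (hu : FR M u) (hv : FR M v) :
    ∫ x, inner ℝ (Gf ν u v x) (u x - v x) ≤ M * ∫ x, ‖u x - v x‖ ^ 2 := by
  obtain ⟨w, hw⟩ : ∃ w : E3 → E3, w = fun x => u x - v x := ⟨_, rfl⟩
  have hwx : ∀ x, u x - v x = w x := fun x => by rw [hw]
  have h2 : H2 w := by rw [hw]; exact hu.h2.sub hv.h2
  have e1 : ∀ x, fderiv ℝ w x = fderiv ℝ u x - fderiv ℝ v x := by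
    intro x
    rw [hw, H2.e1 hu.h2 hv.h2]
  have e2 : ∀ x, fderiv ℝ (fderiv ℝ w) x =
      fderiv ℝ (fderiv ℝ u) x - fderiv ℝ (fderiv ℝ v) x := by
    intro x
    rw [hw, H2.e2 hu.h2 hv.h2]
  have el : ∀ x, Lap w x = Lap u x - Lap v x := by
    intro x
    unfold Lap
    rw [e2, ← Finset.sum_sub_distrib]
    rfl
  simp only [hwx]
  have i1 : Integrable (fun x => inner ℝ (Lap w x) (w x)) :=
    inner_l2 h2.lapc h2.c0 h2.lapi h2.i0
  have i2 : Integrable (fun x => inner ℝ (fderiv ℝ u x (w x)) (w x)) :=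
    l2dom ((hu.h2.c1.clm_apply h2.c0).inner h2.c0) h2.c0 h2.c0 h2.i0 h2.i0 M fun x => by
      refine (norm_inner_le_norm _ _).trans ?_
      rw [← mul_assoc]
      refine mul_le_mul_of_nonneg_right ?_ (norm_nonneg _)
      exact (ContinuousLinearMap.le_opNorm _ _).trans
        (mul_le_mul_of_nonneg_right (hu.b1 x) (norm_nonneg _))
  have i3 : Integrable (fun x => inner ℝ (fderiv ℝ w x (v x)) (w x)) :=
    l2dom ((h2.c1.clm_apply hv.h2.c0).inner h2.c0) h2.c1 h2.c0 h2.i1 h2.i0 M fun x => by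
      refine (norm_inner_le_norm _ _).trans ?_
      rw [← mul_assoc]
      refine mul_le_mul_of_nonneg_right ?_ (norm_nonneg _)
      refine (ContinuousLinearMap.le_opNorm _ _).trans ?_
      rw [mul_comm M]
      exact mul_le_mul_of_nonneg_left (hv.b0 x) (norm_nonneg _)
  have hid : ∀ x, inner ℝ (Gf ν u v x) (w x) = (ν * inner ℝ (Lap w x) (w x) -
      inner ℝ (fderiv ℝ u x (w x)) (w x)) - inner ℝ (fderiv ℝ w x (v x)) (w x) := by
    intro x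
    have e3 : fderiv ℝ u x (u x) - fderiv ℝ v x (v x) =
        fderiv ℝ u x (w x) + fderiv ℝ w x (v x) := by
      rw [e1, ← hwx, map_sub]
      change _ = fderiv ℝ u x (u x) - fderiv ℝ u x (v x) +
        (fderiv ℝ u x (v x) - fderiv ℝ v x (v x))
      abel
    simp only [Gf]
    rw [e3, ← el, inner_sub_left, real_inner_smul_left, inner_add_left]
    ring
  have I3 : ∫ x, inner ℝ (fderiv ℝ w x (v x)) (w x) = 0 :=
    transportR h2 hv.h2.smooth hv.dv hv.b0 hv.b1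
  have I1 := lap_neg h2
  have i12 : Integrable (fun x => ν * inner ℝ (Lap w x) (w x) -
      inner ℝ (fderiv ℝ u x (w x)) (w x)) := (i1.const_mul ν).sub i2
  simp only [hid]
  rw [integral_sub i12 i3, integral_sub (i1.const_mul ν) i2, integral_const_mul, I3]
  have h5 : -∫ x, inner ℝ (fderiv ℝ u x (w x)) (w x) ≤ ∫ x, M * ‖w x‖ ^ 2 := by
    rw [← integral_neg]
    refine integral_mono i2.neg (h2.i0.const_mul M) fun x => ?_
    have h6 : |inner ℝ (fderiv ℝ u x (w x)) (w x)| ≤ (M * ‖w x‖) * ‖w x‖ :=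
      (abs_real_inner_le_norm _ _).trans (mul_le_mul_of_nonneg_right
        ((ContinuousLinearMap.le_opNorm _ _).trans
          (mul_le_mul_of_nonneg_right (hu.b1 x) (norm_nonneg _))) (norm_nonneg _))
    have h7 := neg_le_abs (inner ℝ (fderiv ℝ u x (w x)) (w x))
    calc -inner ℝ (fderiv ℝ u x (w x)) (w x) ≤ (M * ‖w x‖) * ‖w x‖ := h7.trans h6
      _ = M * ‖w x‖ ^ 2 := by ring
  rw [integral_const_mul] at h5
  have h9 : ν * ∫ x, inner ℝ (Lap w x) (w x) ≤ 0 := mul_nonpos_of_nonneg_of_nonpos hν.le I1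
  linarith

theorem CS.l2 {Ω : Set E3} (h : CS Ω φ) : Integrable (fun x => ‖φ x‖ ^ 2) :=
  sq_int (CS.cont h) h.cpt

theorem keyR (hν : 0 < ν) (hu : FR M u) (hv : FR M v) (hφ : CS univ φ) {δ : ℝ} (hδ : 0 < δ) :
    ∫ x, inner ℝ (Gf ν u v x) (φ x) ≤ M * (∫ x, ‖u x - v x‖ ^ 2) +
      1 * (δ * (72 * ν ^ 2 * M + 8 * M ^ 3) + δ⁻¹ * ∫ x, ‖φ x - (u x - v x)‖ ^ 2) := by
  obtain ⟨gc, gi, gs⟩ := Gf_l2 (ν := ν) hu hv
  have wc : Continuous (fun x => u x - v x) := hu.h2.c0.sub hv.h2.c0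
  have wi : Integrable (fun x => ‖u x - v x‖ ^ 2) := l2sub hu.h2.c0 hv.h2.c0 hu.h2.i0 hv.h2.i0
  have fc : Continuous (fun x => φ x - (u x - v x)) := (CS.cont hφ).sub wc
  have fi : Integrable (fun x => ‖φ x - (u x - v x)‖ ^ 2) := l2sub (CS.cont hφ) wc (CS.l2 hφ) wi
  have e2 : ∫ x, inner ℝ (Gf ν u v x) (φ x) = (∫ x, inner ℝ (Gf ν u v x) (u x - v x)) +
      ∫ x, inner ℝ (Gf ν u v x) (φ x - (u x - v x)) := by
    rw [← integral_add (inner_l2 gc wc gi wi) (inner_l2 gc fc gi fi)]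
    refine integral_congr_ae (Eventually.of_forall fun x => ?_)
    simp only
    rw [← inner_add_right]
    congr 1
    abel
  have e3 := (le_abs_self _).trans (pairR gi fi hδ)
  have e4 := main_termR hν hu hv
  have e5 : δ * (∫ x, ‖Gf ν u v x‖ ^ 2) ≤ δ * (72 * ν ^ 2 * M + 8 * M ^ 3) :=
    mul_le_mul_of_nonneg_left gs hδ.le
  rw [e2]
  linarith

theorem keyR_abs (hu : FR M u) (hv : FR M v) (hφ : CS univ φ) :
    |∫ x, inner ℝ (Gf ν u v x) (φ x)| ≤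
      1 * ((72 * ν ^ 2 * M + 8 * M ^ 3) + ∫ x, ‖φ x‖ ^ 2) := by
  obtain ⟨gc, gi, gs⟩ := Gf_l2 (ν := ν) hu hv
  have e3 := pairR gi (CS.l2 hφ) one_pos
  rw [one_mul, inv_one, one_mul] at e3
  linarith

end fr

/-! ### Expansions -/

section alg

variable {ι : Type} {e : ι → E3 → E3} {w : E3 → E3}

theorem energyR (hw : Continuous w) (hwi : Integrable (fun x => ‖w x‖ ^ 2))
    (he : ∀ i, CS univ (e i))
    (horth : ∀ i j, (i = j → ipr (e i) (e j) = 1) ∧ (i ≠ j → ipr (e i) (e j) = 0))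
    (F : Finset ι) (b : ι → ℝ) :
    ∫ x, ‖w x - Pf e F b x‖ ^ 2 =
      ipr w w - 2 * ∑ a ∈ F, b a * ipr w (e a) + ∑ a ∈ F, b a ^ 2 := by
  have hP := Pf_CS he F b
  have i1 : Integrable (fun x => inner ℝ (w x) (w x)) := inner_l2 hw hw hwi hwi
  have i2 := inn_int' hw (CS.cont hP) hP.cpt
  have i3 := inn_int' (CS.cont hP) (CS.cont hP) hP.cpt
  have e1 : ∀ x, ‖w x - Pf e F b x‖ ^ 2 = (inner ℝ (w x) (w x) -
      2 * inner ℝ (w x) (Pf e F b x)) + inner ℝ (Pf e F b x) (Pf e F b x) := by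
    intro x
    rw [norm_sub_sq_real, real_inner_self_eq_norm_sq, real_inner_self_eq_norm_sq]
  have i12 : Integrable (fun x => inner ℝ (w x) (w x) - 2 * inner ℝ (w x) (Pf e F b x)) :=
    i1.sub (i2.const_mul 2)
  simp only [e1]
  rw [integral_add i12 i3, integral_sub i1 (i2.const_mul 2), integral_const_mul]
  have h1 := ipr_Pf isOpen_univ hw he F b
  have h2 := norm_Pf isOpen_univ he horth F b
  unfold ipr at h1 h2 ⊢
  rw [h1, h2]

theorem bestR (hw : Continuous w) (hwi : Integrable (fun x => ‖w x‖ ^ 2))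
    (he : ∀ i, CS univ (e i))
    (horth : ∀ i j, (i = j → ipr (e i) (e j) = 1) ∧ (i ≠ j → ipr (e i) (e j) = 0))
    (F : Finset ι) (b : ι → ℝ) :
    ipr w w - ∑ a ∈ F, ipr w (e a) ^ 2 ≤ ∫ x, ‖w x - Pf e F b x‖ ^ 2 := by
  rw [energyR hw hwi he horth]
  have h : 0 ≤ ∑ a ∈ F, (b a - ipr w (e a)) ^ 2 := Finset.sum_nonneg fun a _ => sq_nonneg _
  have h2 : ∑ a ∈ F, (b a - ipr w (e a)) ^ 2 =
      (∑ a ∈ F, b a ^ 2 - 2 * ∑ a ∈ F, b a * ipr w (e a)) + ∑ a ∈ F, ipr w (e a) ^ 2 := by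
    rw [Finset.mul_sum, ← Finset.sum_sub_distrib, ← Finset.sum_add_distrib]
    exact Finset.sum_congr rfl fun a _ => by ring
  linarith

theorem besselR (hw : Continuous w) (hwi : Integrable (fun x => ‖w x‖ ^ 2))
    (he : ∀ i, CS univ (e i))
    (horth : ∀ i j, (i = j → ipr (e i) (e j) = 1) ∧ (i ≠ j → ipr (e i) (e j) = 0))
    (F : Finset ι) :
    ∫ x, ‖w x - Pf e F (fun a => ipr w (e a)) x‖ ^ 2 = ipr w w - ∑ a ∈ F, ipr w (e a) ^ 2 := by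
  rw [energyR hw hwi he horth]
  have : ∑ a ∈ F, ipr w (e a) * ipr w (e a) = ∑ a ∈ F, ipr w (e a) ^ 2 :=
    Finset.sum_congr rfl fun a _ => by ring
  rw [this]
  ring

theorem convR (he : ∀ i, CS univ (e i))
    (horth : ∀ i j, (i = j → ipr (e i) (e j) = 1) ∧ (i ≠ j → ipr (e i) (e j) = 0))
    (hcompl : ∀ v, CS univ v → Axi v → ∀ ε > 0, ∃ (F : Finset ι) (b : ι → ℝ),
      ∫ x, ‖v x - ∑ a ∈ F, b a • e a x‖ ^ 2 < ε)
    (hw : Continuous w) (hwi : Integrable (fun x => ‖w x‖ ^ 2))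
    (hH : ∀ ε > 0, ∃ φ, CS univ φ ∧ Axi φ ∧ ∫ x, ‖w x - φ x‖ ^ 2 < ε) (ε : ℝ) (hε : 0 < ε) :
    ∃ F0 : Finset ι, ∀ F, F0 ⊆ F → ipr w w - ∑ a ∈ F, ipr w (e a) ^ 2 < ε := by
  obtain ⟨φ, hφ, hφa, h1⟩ := hH (ε / 4) (by linarith)
  obtain ⟨F0, b, h2⟩ := hcompl φ hφ hφa (ε / 4) (by linarith)
  have hP := Pf_CS he F0 b
  refine ⟨F0, fun F hF => ?_⟩
  have h3 : ∫ x, ‖w x - Pf e F0 b x‖ ^ 2 ≤
      2 * (∫ x, ‖w x - φ x‖ ^ 2) + 2 * ∫ x, ‖Pf e F0 b x - φ x‖ ^ 2 := by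
    have h4 := l2tri (f := fun x => w x - φ x) (h := fun x => Pf e F0 b x - φ x)
      (hw.sub (CS.cont hφ)) ((CS.cont hP).sub (CS.cont hφ)) (l2sub hw (CS.cont hφ) hwi (CS.l2 hφ))
      (l2sub (CS.cont hP) (CS.cont hφ) (CS.l2 hP) (CS.l2 hφ))
    refine le_trans (le_of_eq ?_) h4
    refine integral_congr_ae (Eventually.of_forall fun x => ?_)
    simp only
    congr 2
    abel
  have h5 : ∫ x, ‖Pf e F0 b x - φ x‖ ^ 2 = ∫ x, ‖φ x - ∑ a ∈ F0, b a • e a x‖ ^ 2 := by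
    refine integral_congr_ae (Eventually.of_forall fun x => ?_)
    simp only
    rw [norm_sub_rev]
    rfl
  have h6 := bestR hw hwi he horth F0 b
  have h7 : ∑ a ∈ F0, ipr w (e a) ^ 2 ≤ ∑ a ∈ F, ipr w (e a) ^ 2 :=
    Finset.sum_le_sum_of_subset_of_nonneg hF fun a _ _ => sq_nonneg _
  rw [h5] at h3
  linarith

end alg

/-! ### The theorem -/

theorem cd2 {u : E3 → E3} (h : H2 u) : ContDiff ℝ 2 u := by
  have := contDiff_infty.1 h.smooth 2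
  exact_mod_cast this

theorem rtz_sub (θ : ℝ) (x y : E3) : rtz θ (x - y) = rtz θ x - rtz θ y := by
  ext i
  fin_cases i <;> simp [rtz] <;> ring

theorem dvg_sub {u v : E3 → E3} (hu : H2 u) (hv : H2 v) (x : E3) :
    dvg (fun x => u x - v x) x = dvg u x - dvg v x := by
  unfold dvg
  rw [H2.e1 hu hv, ← Finset.sum_sub_distrib]
  rfl

theorem SolX.fr {ι : Type} {ν : ℝ} {e : ι → E3 → E3} {σ : ι → ι} {s : ι → ℝ}
    {T : ℝ} {u : ℝ → E3 → E3} (h : SolX ν e σ s T u) {T' : ℝ} (hT' : T' < T) :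
    ∃ M, ∀ M' ≥ M, ∀ t ∈ Icc 0 T', FR M' (u t) := by
  obtain ⟨M0, h0⟩ := h.bdd 0 T' hT'
  obtain ⟨M1, h1⟩ := h.bdd 1 T' hT'
  obtain ⟨M2, h2⟩ := h.bdd 2 T' hT'
  simp only [norm_iteratedFDeriv_zero] at h0
  simp only [norm_iteratedFDeriv_one] at h1
  simp only [nit2] at h2
  refine ⟨max M0 (max M1 M2), fun M' hM' t ht => ?_⟩
  have m0 : M0 ≤ M' := (le_max_left _ _).trans hM'
  have m1 : M1 ≤ M' := ((le_max_left _ _).trans (le_max_right _ _)).trans hM'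
  have m2 : M2 ≤ M' := ((le_max_right _ _).trans (le_max_right _ _)).trans hM'
  have ht' : t ∈ Ico 0 T := ⟨ht.1, ht.2.trans_lt hT'⟩
  exact { h2 := ⟨h.smooth t ht', (h0 t ht).2.1, (h1 t ht).2.1, (h2 t ht).2.1⟩
          dv := h.dv t ht'
          axi := h.axi t ht'
          b0 := fun x => ((h0 t ht).1 x).trans m0
          b1 := fun x => ((h1 t ht).1 x).trans m1
          s0 := (h0 t ht).2.2.trans m0
          s1 := (h1 t ht).2.2.trans m1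
          s2 := (h2 t ht).2.2.trans m2 }

/-- Uniqueness. -/
theorem t_UNIQR (hdens : S_DENSR) : S_UNIQR := by
  intro ν ι e σ s T u v hν hE hu hv h0 t ht
  obtain ⟨T', hT'⟩ : ∃ T' : ℝ, T' = (t + T) / 2 := ⟨_, rfl⟩
  have ht1 : t < T := ht.2
  have ht2 : t ≤ T' := by rw [hT']; linarith
  have ht3 : T' < T := by rw [hT']; linarith
  have ht4 : 0 ≤ T' := ht.1.trans ht2
  obtain ⟨Mu, hMu⟩ := SolX.fr hu ht3
  obtain ⟨Mv, hMv⟩ := SolX.fr hv ht3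
  obtain ⟨M, hMdef⟩ : ∃ M : ℝ, M = max (max Mu Mv) 0 := ⟨_, rfl⟩
  have hM : 0 ≤ M := by rw [hMdef]; exact le_max_right _ _
  have hMuM : Mu ≤ M := by rw [hMdef]; exact (le_max_left _ _).trans (le_max_left _ _)
  have hMvM : Mv ≤ M := by rw [hMdef]; exact (le_max_right _ _).trans (le_max_left _ _)
  have fu : ∀ τ ∈ Icc 0 T', FR M (u τ) := hMu M hMuM
  have fv : ∀ τ ∈ Icc 0 T', FR M (v τ) := hMv M hMvM
  have he := hE.field
  have hor := hE.orth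
  obtain ⟨c, hc⟩ : ∃ c : ι → ℝ → ℝ, c = fun i τ => ipr (u τ) (e i) - ipr (v τ) (e i) :=
    ⟨_, rfl⟩
  have hcx : ∀ i, ∀ τ ∈ Icc 0 T', c i τ = ipr (fun x => u τ x - v τ x) (e i) := by
    intro i τ hτ
    rw [hc]
    change ipr (u τ) (e i) - ipr (v τ) (e i) = _
    unfold ipr
    rw [← integral_sub (inn_int' (fu τ hτ).h2.c0 (CS.cont (he i)) (he i).cpt)
      (inn_int' (fv τ hτ).h2.c0 (CS.cont (he i)) (he i).cpt)]
    refine integral_congr_ae (Eventually.of_forall fun x => ?_)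
    simp only
    rw [inner_sub_left]
  have hwc : ∀ τ ∈ Icc 0 T', Continuous (fun x => u τ x - v τ x) := fun τ hτ =>
    (fu τ hτ).h2.c0.sub (fv τ hτ).h2.c0
  have hwi : ∀ τ ∈ Icc 0 T', Integrable (fun x => ‖u τ x - v τ x‖ ^ 2) := fun τ hτ =>
    l2sub (fu τ hτ).h2.c0 (fv τ hτ).h2.c0 (fu τ hτ).h2.i0 (fv τ hτ).h2.i0
  have hV : 0 ≤ 72 * ν ^ 2 * M + 8 * M ^ 3 :=
    add_nonneg (mul_nonneg (mul_nonneg (by norm_num) (sq_nonneg _)) hM)
      (mul_nonneg (by norm_num) (pow_nonneg hM 3))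
  have hsum : ∀ τ ∈ Icc 0 T', ∀ F : Finset ι,
      ∑ i ∈ F, c i τ ^ 2 = ∑ i ∈ F, ipr (fun x => u τ x - v τ x) (e i) ^ 2 := fun τ hτ F =>
    Finset.sum_congr rfl fun i _ => by rw [hcx i τ hτ]
  have hPf : ∀ τ ∈ Icc 0 T', ∀ F : Finset ι, ∫ x, ‖Pf e F (fun i => c i τ) x - (u τ x - v τ x)‖ ^ 2
      = ipr (fun x => u τ x - v τ x) (fun x => u τ x - v τ x) - ∑ i ∈ F, c i τ ^ 2 := by
    intro τ hτ F
    have h5 := besselR (w := fun x => u τ x - v τ x) (hwc τ hτ) (hwi τ hτ) he hor F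
    rw [hsum τ hτ F, ← h5]
    refine integral_congr_ae (Eventually.of_forall fun x => ?_)
    simp only
    rw [norm_sub_rev]
    have h6 : (fun i => c i τ) = fun a => ipr (fun x => u τ x - v τ x) (e a) :=
      funext fun i => hcx i τ hτ
    rw [h6]
  have hGs : ∀ τ ∈ Icc 0 T', ∀ F : Finset ι,
      ∑ i ∈ F, c i τ * ∫ x, inner ℝ (Gf ν (u τ) (v τ) x) (e i x) =
        ∫ x, inner ℝ (Gf ν (u τ) (v τ) x) (Pf e F (fun i => c i τ) x) := fun τ hτ F =>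
    (int_Pf isOpen_univ (Gf_l2 (fu τ hτ) (fv τ hτ)).1.continuousOn he F (fun i => c i τ)).symm
  have main := abs_uniq σ s hE.inv hE.skew ht4 hM zero_le_one hV c
    (fun i τ => ∫ x, inner ℝ (Gf ν (u τ) (v τ) x) (e i x))
    (fun τ => ipr (fun x => u τ x - v τ x) (fun x => u τ x - v τ x))
    (B := 4 * M) (fun τ hτ => by
      have h6 := l2tri (fu τ hτ).h2.c0 (fv τ hτ).h2.c0 (fu τ hτ).h2.i0 (fv τ hτ).h2.i0
      have h7 := (fu τ hτ).s0
      have h8 := (fv τ hτ).s0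
      rw [ipr_self]
      linarith)
    (fun i τ hτ => by
      have hτ' : τ ∈ Ico 0 T := ⟨hτ.1, hτ.2.trans_lt ht3⟩
      have h7 := ((hu.eqn i τ hτ').sub (hv.eqn i τ hτ')).mono
        (fun y hy => ⟨hy.1, hy.2.trans_lt ht3⟩ : Icc 0 T' ⊆ Ico 0 T)
      have h8 := gform isOpen_univ ν
        (cd2 (fu τ hτ).h2).contDiffOn (cd2 (fv τ hτ).h2).contDiffOn (he i)
      rw [hc]
      refine h7.congr_deriv ?_
      simp only
      rw [← h8]
      ring)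
    (fun i => by
      rw [hc]
      simp only
      rw [h0, sub_self])
    (fun τ hτ F => by
      have h9 := hPf τ hτ F
      have h10 : 0 ≤ ∫ x, ‖Pf e F (fun i => c i τ) x - (u τ x - v τ x)‖ ^ 2 :=
        integral_nonneg fun x => sq_nonneg _
      linarith)
    (fun τ hτ ε hε => by
      obtain ⟨F0, hF0⟩ := convR (w := fun x => u τ x - v τ x) he hor hE.compl (hwc τ hτ)
        (hwi τ hτ) (fun ε hε => hdens _ ((fu τ hτ).h2.sub (fv τ hτ).h2).smooth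
          (fun θ x => by
            change u τ (rtz θ x) - v τ (rtz θ x) = rtz θ (u τ x - v τ x)
            rw [(fu τ hτ).axi, (fv τ hτ).axi, rtz_sub])
          (fun x => by
            rw [dvg_sub (fu τ hτ).h2 (fv τ hτ).h2, (fu τ hτ).dv, (fv τ hτ).dv, sub_self])
          (hwi τ hτ) ε hε) ε hε
      refine ⟨F0, fun F hF => ?_⟩
      have := hF0 F hF
      rw [← hsum τ hτ F] at this
      exact this)
    (fun τ hτ F => by
      have h11 := keyR_abs (ν := ν) (fu τ hτ) (fv τ hτ) (Pf_CS he F (fun i => c i τ))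
      rw [hGs τ hτ F]
      refine h11.trans (le_of_eq ?_)
      have h12 := norm_Pf isOpen_univ he hor F (fun i => c i τ)
      rw [ipr_self] at h12
      rw [h12])
    (fun τ hτ F δ hδ => by
      have h13 := keyR hν (fu τ hτ) (fv τ hτ) (Pf_CS he F (fun i => c i τ)) hδ
      rw [hGs τ hτ F]
      refine h13.trans (le_of_eq ?_)
      rw [hPf τ hτ F, ipr_self])
    t ⟨ht.1, ht2⟩
  have htt : t ∈ Icc 0 T' := ⟨ht.1, ht2⟩
  rw [ipr_self, integral_eq_zero_iff_of_nonneg (fun x => sq_nonneg _) (hwi t htt)] at main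
  have h14 : (fun x => ‖u t x - v t x‖ ^ 2) = fun _ => (0 : ℝ) :=
    (Continuous.ae_eq_iff_eq (μ := (volume : Measure E3)) ((hwc t htt).norm.pow 2)
      continuous_const).1 main
  funext x
  have h15 := congrFun h14 x
  exact sub_eq_zero.1 (norm_eq_zero.1 (pow_eq_zero_iff (two_ne_zero)|>.1 h15))

end Pool.Agent.Y93.SK
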