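import Pool.Agent.Y303.SK.Stm

/-!
Project SK: uniqueness (S_UNIQ).
-/

open Set Filter Topology MeasureTheory Metric

set_option autoImplicit false

namespace Pool.Agent.Y93.SK

open Pool.Agent.Y5 (E3)
open Pool.Agent.Y303.SK

/-! ### Products of a field which is regular in `Ω` and a field with compact support in `Ω` -/

section glue

variable {Ω : Set E3} {X Y Z : Type*} [NormedAddCommGroup X] [NormedSpace ℝ X]
  [NormedAddCommGroup Y] [NormedSpace ℝ Y] [NormedAddCommGroup Z] [NormedSpace ℝ Z]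
  {f : E3 → X} {φ : E3 → Y}

theorem glue_cont (B : X →L[ℝ] Y →L[ℝ] Z) (hΩ : IsOpen Ω) (hf : ContinuousOn f Ω)
    (hφ : Continuous φ) (hs : tsupport φ ⊆ Ω) : Continuous (fun x => B (f x) (φ x)) := by
  rw [continuous_iff_continuousAt]
  intro x
  by_cases hx : x ∈ tsupport φ
  · have h1 := hf.continuousAt (hΩ.mem_nhds (hs hx))
    exact ((B.continuous.continuousAt.comp h1).clm_apply hφ.continuousAt)
  · have h1 := notMem_tsupport_iff_eventuallyEq.1 hx
    refine (continuousAt_const (y := (0 : Z))).congr ?_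
    filter_upwards [h1] with y hy
    rw [hy]
    simp

theorem glue_cpt (B : X →L[ℝ] Y →L[ℝ] Z) (f : E3 → X) (hφ : HasCompactSupport φ) :
    HasCompactSupport (fun x => B (f x) (φ x)) := by
  refine hφ.mono fun x hx => ?_
  rw [Function.mem_support] at hx ⊢
  intro h
  apply hx
  rw [h, map_zero]

theorem glue_int (B : X →L[ℝ] Y →L[ℝ] Z) (hΩ : IsOpen Ω) (hf : ContinuousOn f Ω)
    (hφ : Continuous φ) (hs : tsupport φ ⊆ Ω) (hc : HasCompactSupport φ) :
    Integrable (fun x => B (f x) (φ x)) :=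
  (glue_cont B hΩ hf hφ hs).integrable_of_hasCompactSupport (glue_cpt B f hc)

end glue

/-- inner products, `g` with compact support in `Ω` -/
theorem inn_int {Ω : Set E3} {f φ : E3 → E3} (hΩ : IsOpen Ω) (hf : ContinuousOn f Ω)
    (hφ : Continuous φ) (hs : tsupport φ ⊆ Ω) (hc : HasCompactSupport φ) :
    Integrable (fun x => inner ℝ (f x) (φ x)) :=
  glue_int (innerSL ℝ) hΩ hf hφ hs hc

/-- inner products of continuous fields, one of them with compact support -/
theorem inn_int' {f φ : E3 → E3} (hf : Continuous f) (hφ : Continuous φ)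
    (hc : HasCompactSupport φ) : Integrable (fun x => inner ℝ (f x) (φ x)) :=
  inn_int isOpen_univ hf.continuousOn hφ (subset_univ _) hc

/-! ### Fields at a fixed time -/

/-- the properties of a solution at a fixed time -/
structure Fld (Ω : Set E3) (M : ℝ) (u : E3 → E3) : Prop where
  cont : Continuous u
  zero : ∀ x ∉ Ω, u x = 0
  c2 : ContDiffOn ℝ 2 u Ω
  inH : InH Ω u
  bd : ∀ x ∈ Ω, ‖u x‖ ≤ M ∧ ‖fderiv ℝ u x‖ ≤ M ∧ ‖fderiv ℝ (fderiv ℝ u) x‖ ≤ M

/-- the Laplacian -/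
noncomputable def Lap (u : E3 → E3) (x : E3) : E3 :=
  ∑ i : Fin 3, fderiv ℝ (fderiv ℝ u) x (cv i) (cv i)

theorem cv_norm (i : Fin 3) : ‖cv i‖ = 1 := by
  simp

section fld

variable {Ω : Set E3} {M : ℝ} {u v φ : E3 → E3}

theorem cpt_of_zero (hb : Bornology.IsBounded Ω) (hz : ∀ x ∉ Ω, u x = 0) :
    HasCompactSupport u :=
  HasCompactSupport.intro hb.isCompact_closure fun x hx => hz x fun h => hx (subset_closure h)

theorem CS.cont (h : CS Ω φ) : Continuous φ := h.smooth.continuous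

theorem CS.out (h : CS Ω φ) (x : E3) (hx : x ∉ Ω) : φ x = 0 :=
  image_eq_zero_of_notMem_tsupport fun h' => hx (h.supp h')

theorem d1 (hΩ : IsOpen Ω) (h : ContDiffOn ℝ 2 u Ω) : ContDiffOn ℝ 1 (fderiv ℝ u) Ω :=
  h.fderiv_of_isOpen hΩ (by norm_num)

theorem d2 (hΩ : IsOpen Ω) (h : ContDiffOn ℝ 2 u Ω) :
    ContinuousOn (fderiv ℝ (fderiv ℝ u)) Ω :=
  ((d1 hΩ h).fderiv_of_isOpen (m := 0) hΩ (by norm_num)).continuousOn

theorem c1 (hΩ : IsOpen Ω) (h : ContDiffOn ℝ 2 u Ω) : ContinuousOn (fderiv ℝ u) Ω :=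
  (d1 hΩ h).continuousOn

theorem lap_cont (hΩ : IsOpen Ω) (h : ContDiffOn ℝ 2 u Ω) : ContinuousOn (Lap u) Ω := by
  unfold Lap
  refine continuousOn_finsetSum _ fun i _ => ?_
  exact ((d2 hΩ h).clm_apply continuousOn_const).clm_apply continuousOn_const

theorem lap_bd (h : ∀ x ∈ Ω, ‖fderiv ℝ (fderiv ℝ u) x‖ ≤ M) (x : E3) (hx : x ∈ Ω) :
    ‖Lap u x‖ ≤ 3 * M := by
  unfold Lap
  refine (norm_sum_le _ _).trans ?_
  have h1 : ∀ i ∈ (Finset.univ : Finset (Fin 3)),
      ‖fderiv ℝ (fderiv ℝ u) x (cv i) (cv i)‖ ≤ M := by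
    intro i _
    refine (ContinuousLinearMap.le_opNorm _ _).trans ?_
    rw [cv_norm, mul_one]
    refine (ContinuousLinearMap.le_opNorm _ _).trans ?_
    rw [cv_norm, mul_one]
    exact h x hx
  refine (Finset.sum_le_card_nsmul _ _ _ h1).trans (le_of_eq ?_)
  rw [Finset.card_univ, Fintype.card_fin, nsmul_eq_mul]
  norm_num

/-- integration by parts -/
theorem ibp (hΩ : IsOpen Ω) (h : ContDiffOn ℝ 2 u Ω) (hφ : CS Ω φ) :
    dirf u φ = -∫ x, inner ℝ (Lap u x) (φ x) := by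
  have hφc := CS.cont hφ
  have hdφ : ∀ i : Fin 3, Continuous (fun x => fderiv ℝ φ x (cv i)) := fun i =>
    (hφ.smooth.continuous_fderiv (by simp)).clm_apply continuous_const
  have hdc : ∀ i : Fin 3, HasCompactSupport (fun x => fderiv ℝ φ x (cv i)) := fun i =>
    hφ.cpt.fderiv_apply (𝕜 := ℝ) (cv i)
  have hds : ∀ i : Fin 3, tsupport (fun x => fderiv ℝ φ x (cv i)) ⊆ Ω := fun i =>
    (tsupport_fderiv_apply_subset ℝ (cv i)).trans hφ.supp
  have hi1 : ∀ i : Fin 3,
      Integrable (fun x => inner ℝ (fderiv ℝ u x (cv i)) (fderiv ℝ φ x (cv i))) := fun i =>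
    inn_int hΩ ((c1 hΩ h).clm_apply continuousOn_const) (hdφ i) (hds i) (hdc i)
  have hi2 : ∀ i : Fin 3,
      Integrable (fun x => inner ℝ (fderiv ℝ (fderiv ℝ u) x (cv i) (cv i)) (φ x)) := fun i =>
    inn_int hΩ (((d2 hΩ h).clm_apply continuousOn_const).clm_apply continuousOn_const) hφc
      hφ.supp hφ.cpt
  have hpt : ∀ (i : Fin 3) (x : E3),
      innerSL ℝ (fderiv ℝ (fun y => fderiv ℝ u y (cv i)) x (cv i)) (φ x) =
        inner ℝ (fderiv ℝ (fderiv ℝ u) x (cv i) (cv i)) (φ x) := by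
    intro i x
    by_cases hx : x ∈ Ω
    · have h1 : DifferentiableAt ℝ (fderiv ℝ u) x :=
        ((d1 hΩ h).contDiffAt (hΩ.mem_nhds hx)).differentiableAt (by norm_num)
      have h2 := ((ContinuousLinearMap.apply ℝ E3 (cv i)).hasFDerivAt.comp x h1.hasFDerivAt).fderiv
      have h3 : fderiv ℝ (fun y => fderiv ℝ u y (cv i)) x =
          (ContinuousLinearMap.apply ℝ E3 (cv i)).comp (fderiv ℝ (fderiv ℝ u) x) := h2
      rw [h3]
      rfl
    · rw [CS.out hφ x hx]
      simp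
  have key : ∀ i : Fin 3, ∫ x, inner ℝ (fderiv ℝ u x (cv i)) (fderiv ℝ φ x (cv i)) =
      -∫ x, inner ℝ (fderiv ℝ (fderiv ℝ u) x (cv i) (cv i)) (φ x) := by
    intro i
    have h4 := integral_bilinear_fderiv_right_eq_neg_left_of_integrable
      (μ := (volume : Measure E3)) (f := fun x => fderiv ℝ u x (cv i)) (g := φ) (v := cv i)
      (B := innerSL ℝ) (by simpa only [hpt] using hi2 i) (hi1 i)
      (inn_int hΩ ((c1 hΩ h).clm_apply continuousOn_const) hφc hφ.supp hφ.cpt)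
      (fun x hx => (((d1 hΩ h).contDiffAt (hΩ.mem_nhds (hφ.supp hx))).differentiableAt
        (by norm_num)).clm_apply (differentiableAt_const _))
      (fun x _ => (hφ.smooth.differentiable (by simp)) x)
    simp only [hpt] at h4
    exact h4
  unfold dirf
  rw [integral_finsetSum _ fun i _ => hi1 i, Finset.sum_congr rfl fun i _ => key i,
    Finset.sum_neg_distrib, ← integral_finsetSum _ fun i _ => hi2 i]
  congr 1
  refine integral_congr_ae (Eventually.of_forall fun x => ?_)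
  simp only [Lap]
  rw [sum_inner]

/-- the right-hand side -/
noncomputable def Gf (ν : ℝ) (u v : E3 → E3) (x : E3) : E3 :=
  ν • (Lap u x - Lap v x) - (fderiv ℝ u x (u x) - fderiv ℝ v x (v x))

theorem adv_cont (hΩ : IsOpen Ω) (h : ContDiffOn ℝ 2 u Ω) (hv : ContinuousOn v Ω) :
    ContinuousOn (fun x => fderiv ℝ u x (v x)) Ω := (c1 hΩ h).clm_apply hv

theorem Gf_cont (hΩ : IsOpen Ω) (ν : ℝ) (hu : ContDiffOn ℝ 2 u Ω) (hv : ContDiffOn ℝ 2 v Ω) :
    ContinuousOn (Gf ν u v) Ω := by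
  unfold Gf
  exact (((lap_cont hΩ hu).sub (lap_cont hΩ hv)).const_smul ν).sub
    ((adv_cont hΩ hu hu.continuousOn).sub (adv_cont hΩ hv hv.continuousOn))

theorem gform (hΩ : IsOpen Ω) (ν : ℝ) (hu : ContDiffOn ℝ 2 u Ω) (hv : ContDiffOn ℝ 2 v Ω)
    (hφ : CS Ω φ) :
    (-(ν * dirf u φ) - adv u u φ) - (-(ν * dirf v φ) - adv v v φ) =
      ∫ x, inner ℝ (Gf ν u v x) (φ x) := by
  have hφc := CS.cont hφ
  have i1 := inn_int hΩ (lap_cont hΩ hu) hφc hφ.supp hφ.cpt
  have i2 := inn_int hΩ (lap_cont hΩ hv) hφc hφ.supp hφ.cpt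
  have i3 := inn_int hΩ (adv_cont hΩ hu hu.continuousOn) hφc hφ.supp hφ.cpt
  have i4 := inn_int hΩ (adv_cont hΩ hv hv.continuousOn) hφc hφ.supp hφ.cpt
  have e1 : ∀ x, inner ℝ (Gf ν u v x) (φ x) = (ν * inner ℝ (Lap u x) (φ x) -
      ν * inner ℝ (Lap v x) (φ x)) - (inner ℝ (fderiv ℝ u x (u x)) (φ x) -
        inner ℝ (fderiv ℝ v x (v x)) (φ x)) := by
    intro x
    unfold Gf
    rw [inner_sub_left, inner_sub_left, real_inner_smul_left, inner_sub_left]
    ring
  simp only [e1]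
  have i12 : Integrable (fun x => ν * inner ℝ (Lap u x) (φ x) - ν * inner ℝ (Lap v x) (φ x)) :=
    (i1.const_mul ν).sub (i2.const_mul ν)
  have i34 : Integrable (fun x => inner ℝ (fderiv ℝ u x (u x)) (φ x) -
      inner ℝ (fderiv ℝ v x (v x)) (φ x)) := i3.sub i4
  rw [integral_sub i12 i34,
    integral_sub (i1.const_mul ν) (i2.const_mul ν), integral_sub i3 i4, integral_const_mul,
    integral_const_mul, ibp hΩ hu hφ, ibp hΩ hv hφ]
  unfold adv
  ring

end fld

end Pool.Agent.Y93.SK
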