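import Pool.Agent.Y93.SK.UniqA

set_option autoImplicit false

open Set Filter Topology MeasureTheory Metric

namespace Pool.Agent.Y93.SK

open Pool.Agent.Y5 (E3)
open Pool.Agent.Y303.SK

/-! ### Estimates in `Ω` -/

section est

variable {Ω : Set E3} {M : ℝ} {u v w φ : E3 → E3}

theorem vfin (hb : Bornology.IsBounded Ω) : volume Ω < ⊤ :=
  hb.measure_lt_top

/-- bounded functions, continuous in `Ω`, are integrable on `Ω` -/
theorem on_int {X : Type*} [NormedAddCommGroup X] {f : E3 → X} (hΩ : IsOpen Ω)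
    (hb : Bornology.IsBounded Ω) (hf : ContinuousOn f Ω) {C : ℝ} (hC : ∀ x ∈ Ω, ‖f x‖ ≤ C) :
    IntegrableOn f Ω := by
  have : IsFiniteMeasure ((volume : Measure E3).restrict Ω) :=
    ⟨by rw [Measure.restrict_apply_univ]; exact vfin hb⟩
  refine Integrable.of_bound (hf.aestronglyMeasurable hΩ.measurableSet) C ?_
  exact (ae_restrict_iff' hΩ.measurableSet).2 (Eventually.of_forall hC)

theorem amgm {a δ : ℝ} (ha : 0 ≤ a) (hδ : 0 < δ) : a ≤ δ + δ⁻¹ * a ^ 2 := by
  rcases le_or_gt a δ with h | h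
  · have : 0 ≤ δ⁻¹ * a ^ 2 := by positivity
    linarith
  · have h1 : a ≤ δ⁻¹ * a ^ 2 := by
      rw [inv_mul_eq_div, le_div_iff₀ hδ]
      nlinarith
    linarith

/-- the `L¹` norm on `Ω` -/
theorem l1_le (hΩ : IsOpen Ω) (hb : Bornology.IsBounded Ω) (hw : Continuous w)
    (hc : HasCompactSupport w) {δ : ℝ} (hδ : 0 < δ) :
    ∫ x in Ω, ‖w x‖ ≤ δ * volume.real Ω + δ⁻¹ * ∫ x, ‖w x‖ ^ 2 := by
  have i1 : Integrable (fun x => ‖w x‖ ^ 2) :=
    Continuous.integrable_of_hasCompactSupport (f := fun x => ‖w x‖ ^ 2) (hw.norm.pow 2)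
      (hc.norm.comp_left (g := fun s : ℝ => s ^ 2) (by norm_num))
  have i0 : Integrable w := hw.integrable_of_hasCompactSupport hc
  have i2 : IntegrableOn (fun _ : E3 => δ) Ω := integrableOn_const (vfin hb).ne
  have h1 : ∫ x in Ω, ‖w x‖ ≤ ∫ x in Ω, (δ + δ⁻¹ * ‖w x‖ ^ 2) :=
    integral_mono i0.norm.integrableOn (i2.add (i1.const_mul _).integrableOn)
      fun x => amgm (norm_nonneg _) hδ
  have h2 : ∫ x in Ω, (δ + δ⁻¹ * ‖w x‖ ^ 2) = δ * volume.real Ω + δ⁻¹ * ∫ x in Ω, ‖w x‖ ^ 2 := by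
    rw [integral_add i2 (i1.const_mul _).integrableOn, integral_const_mul, setIntegral_const,
      smul_eq_mul, mul_comm δ]
  have h3 : ∫ x in Ω, ‖w x‖ ^ 2 ≤ ∫ x, ‖w x‖ ^ 2 :=
    setIntegral_le_integral i1 (Eventually.of_forall fun x => by positivity)
  have h4 : 0 < δ⁻¹ := by positivity
  rw [h2] at h1
  exact h1.trans (add_le_add le_rfl (mul_le_mul_of_nonneg_left h3 h4.le))

/-- pairing of a bounded field with a continuous one -/
theorem pair_le (hΩ : IsOpen Ω) (hb : Bornology.IsBounded Ω) {G : E3 → E3} {C : ℝ} (hC0 : 0 ≤ C)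
    (hC : ∀ x ∈ Ω, ‖G x‖ ≤ C) (hw : Continuous w) (hc : HasCompactSupport w) {δ : ℝ}
    (hδ : 0 < δ) :
    |∫ x in Ω, inner ℝ (G x) (w x)| ≤ C * (δ * volume.real Ω + δ⁻¹ * ∫ x, ‖w x‖ ^ 2) := by
  have i0 : Integrable w := hw.integrable_of_hasCompactSupport hc
  have h1 : ‖∫ x in Ω, inner ℝ (G x) (w x)‖ ≤ ∫ x in Ω, C * ‖w x‖ := by
    refine norm_integral_le_of_norm_le (i0.norm.integrableOn.const_mul C) ?_
    refine (ae_restrict_iff' hΩ.measurableSet).2 (Eventually.of_forall fun x hx => ?_)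
    exact (norm_inner_le_norm _ _).trans
      (mul_le_mul_of_nonneg_right (hC x hx) (norm_nonneg _))
  rw [Real.norm_eq_abs, integral_const_mul] at h1
  exact h1.trans (mul_le_mul_of_nonneg_left (l1_le hΩ hb hw hc hδ) hC0)

theorem zero_of_small {I a b : ℝ} (ha : 0 ≤ a) (hb : 0 ≤ b)
    (h : ∀ δ : ℝ, 0 < δ → |I| ≤ a * (b * δ)) : I = 0 := by
  by_contra hne
  have hpos : 0 < |I| := abs_pos.2 hne
  have hk : 0 < a * b + 1 := add_pos_of_nonneg_of_pos (mul_nonneg ha hb) one_pos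
  have h1 := h (|I| / (2 * (a * b + 1))) (div_pos hpos (mul_pos two_pos hk))
  have h2 : a * (b * (|I| / (2 * (a * b + 1)))) = (a * b) / (a * b + 1) * (|I| / 2) := by
    field_simp
  have h3 : (a * b) / (a * b + 1) ≤ 1 := by
    rw [div_le_one hk]; linarith
  have h4 : (a * b) / (a * b + 1) * (|I| / 2) ≤ 1 * (|I| / 2) :=
    mul_le_mul_of_nonneg_right h3 (by linarith)
  rw [h2] at h1
  linarith

theorem coord_fderiv (hφ : CS Ω φ) (j : Fin 3) (x y : E3) :
    fderiv ℝ (fun z => φ z j) x y = (fderiv ℝ φ x y) j := by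
  have h1 : DifferentiableAt ℝ φ x := (hφ.smooth.differentiable (by simp)) x
  have h2 := ((EuclideanSpace.proj j : E3 →L[ℝ] ℝ).hasFDerivAt.comp x
    h1.hasFDerivAt).fderiv
  have h3 : fderiv ℝ (fun z => φ z j) x =
      (EuclideanSpace.proj j : E3 →L[ℝ] ℝ).comp (fderiv ℝ φ x) := h2
  rw [h3]
  rfl

theorem sum_cv (y : E3) : ∑ j : Fin 3, y j • cv j = y := by
  ext k
  fin_cases k <;> simp [Fin.sum_univ_three]

/-- divergence free fields with compact support transport nothing -/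
theorem transport0 (hΩ : IsOpen Ω) (hw : ContDiffOn ℝ 2 w Ω) (hφ : CS Ω φ) :
    ∫ x, inner ℝ (fderiv ℝ w x (φ x)) (w x) = 0 := by
  have hφc := CS.cont hφ
  have hw0 : ContinuousOn w Ω := hw.continuousOn
  have hq : ContinuousOn (fun x => inner ℝ (w x) (w x)) Ω := hw0.inner hw0
  have hqd : ∀ x ∈ Ω, DifferentiableAt ℝ w x := fun x hx =>
    (hw.contDiffAt (hΩ.mem_nhds hx)).differentiableAt (by norm_num)
  have hjc : ∀ j : Fin 3, Continuous (fun x => φ x j) := fun j =>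
    (EuclideanSpace.proj j : E3 →L[ℝ] ℝ).continuous.comp hφc
  have hjs : ∀ j : Fin 3, tsupport (fun x => φ x j) ⊆ Ω := fun j => by
    refine (closure_mono ?_).trans hφ.supp
    intro x hx
    rw [Function.mem_support] at hx ⊢
    intro h
    apply hx
    rw [h]
    rfl
  have hjp : ∀ j : Fin 3, HasCompactSupport (fun x => φ x j) := fun j => by
    refine hφ.cpt.mono fun x hx => ?_
    rw [Function.mem_support] at hx ⊢
    intro h
    apply hx
    rw [h]
    rfl
  have hdc : ∀ j : Fin 3, Continuous (fun x => fderiv ℝ (fun z => φ z j) x (cv j)) := fun j => by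
    have e : (fun x => fderiv ℝ (fun z => φ z j) x (cv j)) =
        fun x => (fderiv ℝ φ x (cv j)) j := by
      funext x; exact coord_fderiv hφ j x (cv j)
    rw [e]
    exact (EuclideanSpace.proj j : E3 →L[ℝ] ℝ).continuous.comp
      ((hφ.smooth.continuous_fderiv (by simp)).clm_apply continuous_const)
  have hds : ∀ j : Fin 3, tsupport (fun x => fderiv ℝ (fun z => φ z j) x (cv j)) ⊆ Ω := fun j =>
    (tsupport_fderiv_apply_subset ℝ (cv j)).trans (hjs j)
  have hdp : ∀ j : Fin 3, HasCompactSupport (fun x => fderiv ℝ (fun z => φ z j) x (cv j)) :=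
    fun j => (hjp j).fderiv_apply (𝕜 := ℝ) (cv j)
  have hqf : ∀ x ∈ Ω, ∀ y, fderiv ℝ (fun z => inner ℝ (w z) (w z)) x y =
      2 * inner ℝ (fderiv ℝ w x y) (w x) := by
    intro x hx y
    rw [fderiv_inner_apply ℝ (hqd x hx) (hqd x hx), real_inner_comm]
    ring
  have hqfc : ∀ j : Fin 3, ContinuousOn (fun x => fderiv ℝ (fun z => inner ℝ (w z) (w z)) x
      (cv j)) Ω := by
    intro j
    have : ContinuousOn (fun x => 2 * inner ℝ (fderiv ℝ w x (cv j)) (w x)) Ω :=
      continuousOn_const.mul (((c1 hΩ hw).clm_apply continuousOn_const).inner hw0)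
    exact this.congr fun x hx => hqf x hx (cv j)
  have I1 : ∀ j : Fin 3, Integrable (fun x => inner ℝ (w x) (w x) *
      fderiv ℝ (fun z => φ z j) x (cv j)) := fun j =>
    glue_int (ContinuousLinearMap.mul ℝ ℝ) hΩ hq (hdc j) (hds j) (hdp j)
  have I2 : ∀ j : Fin 3, Integrable (fun x => fderiv ℝ (fun z => inner ℝ (w z) (w z)) x (cv j) *
      φ x j) := fun j =>
    glue_int (ContinuousLinearMap.mul ℝ ℝ) hΩ (hqfc j) (hjc j) (hjs j) (hjp j)
  have key : ∀ j : Fin 3, ∫ x, inner ℝ (w x) (w x) * fderiv ℝ (fun z => φ z j) x (cv j) =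
      -∫ x, fderiv ℝ (fun z => inner ℝ (w z) (w z)) x (cv j) * φ x j := by
    intro j
    refine integral_mul_fderiv_eq_neg_fderiv_mul_of_integrable (I2 j) (I1 j)
      (glue_int (ContinuousLinearMap.mul ℝ ℝ) hΩ hq (hjc j) (hjs j) (hjp j)) ?_ ?_
    · intro x hx
      exact (hqd x (hjs j hx)).inner ℝ (hqd x (hjs j hx))
    · intro x _
      exact (EuclideanSpace.proj j : E3 →L[ℝ] ℝ).differentiableAt.comp x
        ((hφ.smooth.differentiable (by simp)) x)
  have hL : ∑ j : Fin 3, ∫ x, inner ℝ (w x) (w x) * fderiv ℝ (fun z => φ z j) x (cv j) = 0 := by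
    rw [← integral_finsetSum _ fun j _ => I1 j]
    have : ∀ x, ∑ j : Fin 3, inner ℝ (w x) (w x) * fderiv ℝ (fun z => φ z j) x (cv j) = 0 := by
      intro x
      rw [← Finset.mul_sum, Finset.sum_congr rfl fun j _ => coord_fderiv hφ j x (cv j)]
      have := hφ.dv x
      unfold dvg at this
      rw [this, mul_zero]
    simp only [this, integral_zero]
  have hR : ∑ j : Fin 3, ∫ x, fderiv ℝ (fun z => inner ℝ (w z) (w z)) x (cv j) * φ x j =
      2 * ∫ x, inner ℝ (fderiv ℝ w x (φ x)) (w x) := by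
    rw [← integral_finsetSum _ fun j _ => I2 j, ← integral_const_mul]
    congr 1
    funext x
    by_cases hx : x ∈ Ω
    · rw [Finset.sum_congr rfl fun j _ => by rw [hqf x hx (cv j)]]
      conv_rhs => rw [← sum_cv (φ x)]
      rw [map_sum, sum_inner, Finset.mul_sum]
      refine Finset.sum_congr rfl fun j _ => ?_
      rw [map_smul, real_inner_smul_left]
      ring
    · rw [CS.out hφ x hx]
      simp
  rw [Finset.sum_congr rfl fun j _ => key j, Finset.sum_neg_distrib, hR] at hL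
  linarith

/-- the same for limits -/
theorem transport (hΩ : IsOpen Ω) (hb : Bornology.IsBounded Ω) (hw : ContDiffOn ℝ 2 w Ω)
    {C : ℝ} (hC0 : 0 ≤ C) (hC : ∀ x ∈ Ω, ‖w x‖ ≤ C ∧ ‖fderiv ℝ w x‖ ≤ C) (hvc : Continuous v)
    (hvz : ∀ x ∉ Ω, v x = 0) (hv : InH Ω v) :
    ∫ x in Ω, inner ℝ (fderiv ℝ w x (v x)) (w x) = 0 := by
  have hvb : HasCompactSupport v := cpt_of_zero hb hvz
  -- the adjoint
  have hadj : ∀ x (y : E3), inner ℝ (fderiv ℝ w x y) (w x) =
      inner ℝ ((ContinuousLinearMap.adjoint (fderiv ℝ w x)) (w x)) y := by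
    intro x y
    rw [ContinuousLinearMap.adjoint_inner_left, real_inner_comm]
  have hAC : ∀ x ∈ Ω, ‖(ContinuousLinearMap.adjoint (fderiv ℝ w x)) (w x)‖ ≤ C * C := by
    intro x hx
    refine (ContinuousLinearMap.le_opNorm _ _).trans ?_
    rw [LinearIsometryEquiv.norm_map]
    exact mul_le_mul (hC x hx).2 (hC x hx).1 (norm_nonneg _) hC0
  have hVol : 0 ≤ volume.real Ω := measureReal_nonneg
  have main : ∀ δ : ℝ, 0 < δ → |∫ x in Ω, inner ℝ (fderiv ℝ w x (v x)) (w x)| ≤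
      C * C * ((volume.real Ω + 1) * δ) := by
    intro δ hδ
    obtain ⟨φ, hφ, hφε⟩ := hv.2 (δ ^ 2) (by positivity)
    have hφc := CS.cont hφ
    have h0 := transport0 hΩ hw hφ
    have h1 : ∫ x in Ω, inner ℝ (fderiv ℝ w x (φ x)) (w x) = 0 := by
      rw [setIntegral_eq_integral_of_forall_compl_eq_zero, h0]
      intro x hx
      rw [CS.out hφ x hx]
      simp
    have hw0 : ContinuousOn w Ω := hw.continuousOn
    have hφb : ∃ K, ∀ x, ‖φ x‖ ≤ K := hφ.cpt.exists_bound_of_continuous hφc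
    have hvK : ∃ K, ∀ x, ‖v x‖ ≤ K := hvb.exists_bound_of_continuous hvc
    have hint : ∀ f : E3 → E3, Continuous f → (∃ K, ∀ x, ‖f x‖ ≤ K) →
        IntegrableOn (fun x => inner ℝ (fderiv ℝ w x (f x)) (w x)) Ω := by
      rintro f hf ⟨K, hK⟩
      refine on_int hΩ hb ((adv_cont hΩ hw hf.continuousOn).inner hw0) (C := (C * K) * C)
        fun x hx => ?_
      refine (norm_inner_le_norm _ _).trans ?_
      have hK0 : 0 ≤ K := (norm_nonneg _).trans (hK x)
      refine mul_le_mul ?_ (hC x hx).1 (norm_nonneg _) (by positivity)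
      exact (ContinuousLinearMap.le_opNorm _ _).trans
        (mul_le_mul (hC x hx).2 (hK x) (norm_nonneg _) hC0)
    have h2 : ∫ x in Ω, inner ℝ (fderiv ℝ w x (v x)) (w x) =
        ∫ x in Ω, inner ℝ ((ContinuousLinearMap.adjoint (fderiv ℝ w x)) (w x)) (v x - φ x) := by
      rw [← sub_zero (∫ x in Ω, inner ℝ (fderiv ℝ w x (v x)) (w x)), ← h1,
        ← integral_sub (hint v hvc hvK) (hint φ hφc hφb)]
      refine integral_congr_ae (Eventually.of_forall fun x => ?_)
      simp only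
      rw [hadj, hadj, ← inner_sub_right]
    rw [h2]
    have hCC : 0 ≤ C * C := mul_nonneg hC0 hC0
    refine (pair_le (w := fun x => v x - φ x) hΩ hb hCC hAC (hvc.sub hφc) (hvb.sub hφ.cpt)
      hδ).trans ?_
    refine mul_le_mul_of_nonneg_left ?_ hCC
    have h3 : δ⁻¹ * ∫ x, ‖v x - φ x‖ ^ 2 ≤ δ⁻¹ * δ ^ 2 :=
      mul_le_mul_of_nonneg_left hφε.le (inv_nonneg.2 hδ.le)
    have h4 : δ⁻¹ * δ ^ 2 = δ := by field_simp
    rw [h4] at h3
    calc δ * volume.real Ω + δ⁻¹ * ∫ x, ‖v x - φ x‖ ^ 2 ≤ δ * volume.real Ω + δ :=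
          add_le_add le_rfl h3
      _ = (volume.real Ω + 1) * δ := by ring
  exact zero_of_small (mul_nonneg hC0 hC0) (add_nonneg hVol zero_le_one) main

end est

end Pool.Agent.Y93.SK
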