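import Pool.Agent.Y93.SK.UniqB

set_option autoImplicit false

open Set Filter Topology MeasureTheory Metric

namespace Pool.Agent.Y93.SK

open Pool.Agent.Y5 (E3)
open Pool.Agent.Y303.SK

section keyest

variable {Ω : Set E3} {M ν : ℝ} {u v φ : E3 → E3}

theorem w_cont (hu : Fld Ω M u) (hv : Fld Ω M v) : Continuous (fun x => u x - v x) :=
  hu.cont.sub hv.cont

theorem w_zero (hu : Fld Ω M u) (hv : Fld Ω M v) : ∀ x ∉ Ω, u x - v x = 0 := by
  intro x hx
  rw [hu.zero x hx, hv.zero x hx, sub_zero]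

theorem w_c2 (hu : Fld Ω M u) (hv : Fld Ω M v) : ContDiffOn ℝ 2 (fun x => u x - v x) Ω :=
  hu.c2.sub hv.c2

theorem w_d1 (hΩ : IsOpen Ω) (hu : Fld Ω M u) (hv : Fld Ω M v) (x : E3) (hx : x ∈ Ω) :
    fderiv ℝ (fun y => u y - v y) x = fderiv ℝ u x - fderiv ℝ v x :=
  fderiv_fun_sub ((hu.c2.contDiffAt (hΩ.mem_nhds hx)).differentiableAt (by norm_num))
    ((hv.c2.contDiffAt (hΩ.mem_nhds hx)).differentiableAt (by norm_num))

theorem w_d2 (hΩ : IsOpen Ω) (hu : Fld Ω M u) (hv : Fld Ω M v) (x : E3) (hx : x ∈ Ω) :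
    fderiv ℝ (fderiv ℝ (fun y => u y - v y)) x =
      fderiv ℝ (fderiv ℝ u) x - fderiv ℝ (fderiv ℝ v) x := by
  have h1 : fderiv ℝ (fun y => u y - v y) =ᶠ[𝓝 x] fun y => fderiv ℝ u y - fderiv ℝ v y := by
    filter_upwards [hΩ.mem_nhds hx] with y hy
    exact w_d1 hΩ hu hv y hy
  rw [h1.fderiv_eq]
  exact fderiv_fun_sub (((d1 hΩ hu.c2).contDiffAt (hΩ.mem_nhds hx)).differentiableAt (by norm_num))
    (((d1 hΩ hv.c2).contDiffAt (hΩ.mem_nhds hx)).differentiableAt (by norm_num))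

theorem Gf_bd (hν : 0 < ν) (hu : Fld Ω M u) (hv : Fld Ω M v) (x : E3) (hx : x ∈ Ω) :
    ‖Gf ν u v x‖ ≤ 6 * ν * M + 2 * M * M := by
  obtain ⟨u0, u1, u2⟩ := hu.bd x hx
  obtain ⟨v0, v1, v2⟩ := hv.bd x hx
  have hM : 0 ≤ M := (norm_nonneg _).trans u0
  have a1 : ‖Lap u x - Lap v x‖ ≤ 3 * M + 3 * M :=
    (norm_sub_le _ _).trans (add_le_add (lap_bd (fun y hy => (hu.bd y hy).2.2) x hx)
      (lap_bd (fun y hy => (hv.bd y hy).2.2) x hx))
  have a2 : ‖fderiv ℝ u x (u x) - fderiv ℝ v x (v x)‖ ≤ M * M + M * M := by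
    refine (norm_sub_le _ _).trans (add_le_add ?_ ?_)
    · exact (ContinuousLinearMap.le_opNorm _ _).trans (mul_le_mul u1 u0 (norm_nonneg _) hM)
    · exact (ContinuousLinearMap.le_opNorm _ _).trans (mul_le_mul v1 v0 (norm_nonneg _) hM)
  unfold Gf
  refine (norm_sub_le _ _).trans ?_
  rw [norm_smul, Real.norm_of_nonneg hν.le]
  have a3 : ν * ‖Lap u x - Lap v x‖ ≤ ν * (3 * M + 3 * M) :=
    mul_le_mul_of_nonneg_left a1 hν.le
  calc ν * ‖Lap u x - Lap v x‖ + ‖fderiv ℝ u x (u x) - fderiv ℝ v x (v x)‖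
      ≤ ν * (3 * M + 3 * M) + (M * M + M * M) := add_le_add a3 a2
    _ = _ := by ring

/-- the main term -/
theorem main_term (hs : S_SGN) (hΩ : IsOpen Ω) (hb : Bornology.IsBounded Ω) (hν : 0 < ν)
    (hM : 0 ≤ M) (hu : Fld Ω M u) (hv : Fld Ω M v) :
    ∫ x in Ω, inner ℝ (Gf ν u v x) (u x - v x) ≤ M * ∫ x, ‖u x - v x‖ ^ 2 := by
  obtain ⟨w, hw⟩ : ∃ w : E3 → E3, w = fun x => u x - v x := ⟨_, rfl⟩
  have hwc : Continuous w := by rw [hw]; exact w_cont hu hv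
  have hwz : ∀ x ∉ Ω, w x = 0 := by rw [hw]; exact w_zero hu hv
  have hw2 : ContDiffOn ℝ 2 w Ω := by rw [hw]; exact w_c2 hu hv
  have hwd1 : ∀ x ∈ Ω, fderiv ℝ w x = fderiv ℝ u x - fderiv ℝ v x := by
    rw [hw]; exact w_d1 hΩ hu hv
  have hwd2 : ∀ x ∈ Ω, fderiv ℝ (fderiv ℝ w) x =
      fderiv ℝ (fderiv ℝ u) x - fderiv ℝ (fderiv ℝ v) x := by
    rw [hw]; exact w_d2 hΩ hu hv
  have hwx : ∀ x, u x - v x = w x := fun x => by rw [hw]
  have hwcpt : HasCompactSupport w := cpt_of_zero hb hwz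
  simp only [hwx]
  have b0 : ∀ x ∈ Ω, ‖w x‖ ≤ 2 * M ∧ ‖fderiv ℝ w x‖ ≤ 2 * M := by
    intro x hx
    obtain ⟨u0, u1, u2⟩ := hu.bd x hx
    obtain ⟨v0, v1, v2⟩ := hv.bd x hx
    constructor
    · rw [← hwx]
      exact (norm_sub_le _ _).trans (by linarith)
    · rw [hwd1 x hx]
      exact (norm_sub_le _ _).trans (by linarith)
  have hlw : ∀ x ∈ Ω, ∑ i : Fin 3, fderiv ℝ (fderiv ℝ w) x (cv i) (cv i) =
      Lap u x - Lap v x := by
    intro x hx
    unfold Lap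
    rw [hwd2 x hx, ← Finset.sum_sub_distrib]
    rfl
  have b2 : ∀ x ∈ Ω, ‖fderiv ℝ (fderiv ℝ w) x‖ ≤ 2 * M := by
    intro x hx
    have u2 := (hu.bd x hx).2.2
    have v2 := (hv.bd x hx).2.2
    rw [hwd2 x hx]
    have h := norm_sub_le (fderiv ℝ (fderiv ℝ u) x) (fderiv ℝ (fderiv ℝ v) x)
    linarith
  have I1 := hs Ω w (2 * M) hΩ hb hwc hwz hw2 (fun x hx => ⟨(b0 x hx).2, b2 x hx⟩)
  rw [setIntegral_congr_fun hΩ.measurableSet
    (fun x hx => by simp only [hlw x hx] :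
      EqOn (fun x => inner ℝ (∑ i : Fin 3, fderiv ℝ (fderiv ℝ w) x (cv i) (cv i)) (w x))
        (fun x => inner ℝ (Lap u x - Lap v x) (w x)) Ω)] at I1
  have I2 := transport hΩ hb hw2 (C := 2 * M) (by linarith) b0 hv.cont hv.zero hv.inH
  have hlc : ContinuousOn (fun x => inner ℝ (Lap u x - Lap v x) (w x)) Ω :=
    ((lap_cont hΩ hu.c2).sub (lap_cont hΩ hv.c2)).inner hwc.continuousOn
  have i1 : IntegrableOn (fun x => inner ℝ (Lap u x - Lap v x) (w x)) Ω := by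
    refine on_int hΩ hb hlc (C := (3 * M + 3 * M) * (2 * M)) fun x hx => ?_
    refine (norm_inner_le_norm _ _).trans (mul_le_mul ?_ (b0 x hx).1 (norm_nonneg _) (by linarith))
    exact (norm_sub_le _ _).trans (add_le_add (lap_bd (fun y hy => (hu.bd y hy).2.2) x hx)
      (lap_bd (fun y hy => (hv.bd y hy).2.2) x hx))
  have i2 : IntegrableOn (fun x => inner ℝ (fderiv ℝ u x (w x)) (w x)) Ω := by
    refine on_int hΩ hb ((adv_cont hΩ hu.c2 hwc.continuousOn).inner hwc.continuousOn)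
      (C := (M * (2 * M)) * (2 * M)) fun x hx => ?_
    refine (norm_inner_le_norm _ _).trans (mul_le_mul ?_ (b0 x hx).1 (norm_nonneg _)
      (mul_nonneg hM (by linarith)))
    exact (ContinuousLinearMap.le_opNorm _ _).trans
      (mul_le_mul (hu.bd x hx).2.1 (b0 x hx).1 (norm_nonneg _) hM)
  have i3 : IntegrableOn (fun x => inner ℝ (fderiv ℝ w x (v x)) (w x)) Ω := by
    refine on_int hΩ hb ((adv_cont hΩ hw2 hv.cont.continuousOn).inner hwc.continuousOn)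
      (C := ((2 * M) * M) * (2 * M)) fun x hx => ?_
    refine (norm_inner_le_norm _ _).trans (mul_le_mul ?_ (b0 x hx).1 (norm_nonneg _)
      (mul_nonneg (by linarith) hM))
    exact (ContinuousLinearMap.le_opNorm _ _).trans
      (mul_le_mul (b0 x hx).2 (hv.bd x hx).1 (norm_nonneg _) (by linarith))
  have hid : EqOn (fun x => inner ℝ (Gf ν u v x) (w x))
      (fun x => (ν * inner ℝ (Lap u x - Lap v x) (w x) - inner ℝ (fderiv ℝ u x (w x)) (w x)) -
        inner ℝ (fderiv ℝ w x (v x)) (w x)) Ω := by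
    intro x hx
    have e1 : fderiv ℝ u x (u x) - fderiv ℝ v x (v x) =
        fderiv ℝ u x (w x) + fderiv ℝ w x (v x) := by
      rw [hwd1 x hx, ← hwx, map_sub]
      change _ = fderiv ℝ u x (u x) - fderiv ℝ u x (v x) +
        (fderiv ℝ u x (v x) - fderiv ℝ v x (v x))
      abel
    simp only [Gf]
    rw [e1, inner_sub_left, real_inner_smul_left, inner_add_left]
    ring
  have i12 : IntegrableOn (fun x => ν * inner ℝ (Lap u x - Lap v x) (w x) -
      inner ℝ (fderiv ℝ u x (w x)) (w x)) Ω := (i1.const_mul ν).sub i2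
  rw [setIntegral_congr_fun hΩ.measurableSet hid, integral_sub i12 i3,
    integral_sub (i1.const_mul ν) i2, integral_const_mul, I2]
  have iw : Integrable (fun x => ‖w x‖ ^ 2) :=
    Continuous.integrable_of_hasCompactSupport (f := fun x => ‖w x‖ ^ 2) (hwc.norm.pow 2)
      (hwcpt.norm.comp_left (g := fun s : ℝ => s ^ 2) (by norm_num))
  have h5 : -∫ x in Ω, inner ℝ (fderiv ℝ u x (w x)) (w x) ≤ ∫ x in Ω, M * ‖w x‖ ^ 2 := by
    rw [← integral_neg]
    refine setIntegral_mono_on i2.neg (iw.const_mul M).integrableOn hΩ.measurableSet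
      fun x hx => ?_
    have h6 : |inner ℝ (fderiv ℝ u x (w x)) (w x)| ≤ (M * ‖w x‖) * ‖w x‖ :=
      (abs_real_inner_le_norm _ _).trans (mul_le_mul_of_nonneg_right
        ((ContinuousLinearMap.le_opNorm _ _).trans
          (mul_le_mul_of_nonneg_right (hu.bd x hx).2.1 (norm_nonneg _))) (norm_nonneg _))
    have h7 := neg_le_abs (inner ℝ (fderiv ℝ u x (w x)) (w x))
    calc -inner ℝ (fderiv ℝ u x (w x)) (w x) ≤ (M * ‖w x‖) * ‖w x‖ := h7.trans h6
      _ = M * ‖w x‖ ^ 2 := by ring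
  have h8 : ∫ x in Ω, M * ‖w x‖ ^ 2 ≤ M * ∫ x, ‖w x‖ ^ 2 := by
    rw [integral_const_mul]
    exact mul_le_mul_of_nonneg_left
      (setIntegral_le_integral iw (Eventually.of_forall fun x => by positivity)) hM
  have h9 : ν * ∫ x in Ω, inner ℝ (Lap u x - Lap v x) (w x) ≤ 0 :=
    mul_nonpos_of_nonneg_of_nonpos hν.le I1
  linarith

/-- the energy inequality for a test field -/
theorem key (hs : S_SGN) (hΩ : IsOpen Ω) (hb : Bornology.IsBounded Ω) (hν : 0 < ν)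
    (hM : 0 ≤ M) (hu : Fld Ω M u) (hv : Fld Ω M v) (hφ : CS Ω φ) {δ : ℝ} (hδ : 0 < δ) :
    ∫ x, inner ℝ (Gf ν u v x) (φ x) ≤ M * (∫ x, ‖u x - v x‖ ^ 2) +
      (6 * ν * M + 2 * M * M) *
        (δ * volume.real Ω + δ⁻¹ * ∫ x, ‖φ x - (u x - v x)‖ ^ 2) := by
  have hφc := CS.cont hφ
  have hwc := w_cont hu hv
  have hwcpt : HasCompactSupport (fun x => u x - v x) := cpt_of_zero hb (w_zero hu hv)
  have hC : 0 ≤ 6 * ν * M + 2 * M * M :=
    add_nonneg (mul_nonneg (by linarith) hM) (mul_nonneg (by linarith) hM)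
  have hGc := Gf_cont hΩ ν hu.c2 hv.c2
  have hG := Gf_bd hν hu hv
  have hgi : ∀ f : E3 → E3, Continuous f → HasCompactSupport f →
      IntegrableOn (fun x => inner ℝ (Gf ν u v x) (f x)) Ω := by
    intro f hf hfc
    obtain ⟨K, hK⟩ := hfc.exists_bound_of_continuous hf
    refine on_int hΩ hb (hGc.inner hf.continuousOn) (C := (6 * ν * M + 2 * M * M) * K)
      fun x hx => ?_
    exact (norm_inner_le_norm _ _).trans (mul_le_mul (hG x hx) (hK x) (norm_nonneg _) hC)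
  have e1 : ∫ x, inner ℝ (Gf ν u v x) (φ x) = ∫ x in Ω, inner ℝ (Gf ν u v x) (φ x) := by
    rw [setIntegral_eq_integral_of_forall_compl_eq_zero]
    intro x hx
    rw [CS.out hφ x hx, inner_zero_right]
  have e2 : ∫ x in Ω, inner ℝ (Gf ν u v x) (φ x) =
      (∫ x in Ω, inner ℝ (Gf ν u v x) (u x - v x)) +
        ∫ x in Ω, inner ℝ (Gf ν u v x) (φ x - (u x - v x)) := by
    rw [← integral_add (hgi _ hwc hwcpt) (hgi (fun x => φ x - (u x - v x)) (hφc.sub hwc)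
      (hφ.cpt.sub hwcpt))]
    refine integral_congr_ae (Eventually.of_forall fun x => ?_)
    simp only
    rw [← inner_add_right]
    congr 1
    abel
  have e3 := (le_abs_self _).trans (pair_le (w := fun x => φ x - (u x - v x)) hΩ hb hC hG
    (hφc.sub hwc) (hφ.cpt.sub hwcpt) hδ)
  rw [e1, e2]
  exact add_le_add (main_term hs hΩ hb hν hM hu hv) e3

theorem key_abs (hΩ : IsOpen Ω) (hb : Bornology.IsBounded Ω) (hν : 0 < ν)
    (hM : 0 ≤ M) (hu : Fld Ω M u) (hv : Fld Ω M v) (hφ : CS Ω φ) :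
    |∫ x, inner ℝ (Gf ν u v x) (φ x)| ≤
      (6 * ν * M + 2 * M * M) * (volume.real Ω + ∫ x, ‖φ x‖ ^ 2) := by
  have hC : 0 ≤ 6 * ν * M + 2 * M * M :=
    add_nonneg (mul_nonneg (by linarith) hM) (mul_nonneg (by linarith) hM)
  have e1 : ∫ x, inner ℝ (Gf ν u v x) (φ x) = ∫ x in Ω, inner ℝ (Gf ν u v x) (φ x) := by
    rw [setIntegral_eq_integral_of_forall_compl_eq_zero]
    intro x hx
    rw [CS.out hφ x hx, inner_zero_right]
  have e3 := pair_le (w := φ) hΩ hb hC (Gf_bd hν hu hv) (CS.cont hφ) hφ.cpt one_pos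
  rw [one_mul, inv_one, one_mul] at e3
  rw [e1]
  exact e3

end keyest

end Pool.Agent.Y93.SK
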