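import Pool.Agent.Y93.SK.UniqD
import Pool.Agent.Y93.SK.UniqE
import Pool.Agent.Y303.SK.XDefs

/-!
Project SKX: uniqueness in `ℝ³` (S_UNIQR), estimates at a fixed time.
-/

set_option autoImplicit false

open Set Filter Topology MeasureTheory Metric

namespace Pool.Agent.Y93.SK

open Pool.Agent.Y5 (E3)
open Pool.Agent.Y303.SK

/-! ### Square integrable fields -/

section l2

variable {X Y : Type*} [NormedAddCommGroup X] [NormedAddCommGroup Y] {f : E3 → X} {g : E3 → Y}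

theorem l2mul (hf : Continuous f) (hg : Continuous g) (hfi : Integrable (fun x => ‖f x‖ ^ 2))
    (hgi : Integrable (fun x => ‖g x‖ ^ 2)) : Integrable (fun x => ‖f x‖ * ‖g x‖) := by
  refine (hfi.add hgi).mono' (hf.norm.mul hg.norm).aestronglyMeasurable
    (Eventually.of_forall fun x => ?_)
  rw [Real.norm_of_nonneg (mul_nonneg (norm_nonneg _) (norm_nonneg _))]
  have h1 := sq_nonneg (‖f x‖ - ‖g x‖)
  have h2 : 0 ≤ ‖f x‖ * ‖g x‖ := mul_nonneg (norm_nonneg _) (norm_nonneg _)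
  change ‖f x‖ * ‖g x‖ ≤ ‖f x‖ ^ 2 + ‖g x‖ ^ 2
  linarith [h1, h2, sub_sq ‖f x‖ ‖g x‖]

theorem l2sub {h : E3 → X} (hf : Continuous f) (hh : Continuous h)
    (hfi : Integrable (fun x => ‖f x‖ ^ 2)) (hhi : Integrable (fun x => ‖h x‖ ^ 2)) :
    Integrable (fun x => ‖f x - h x‖ ^ 2) := by
  refine ((hfi.const_mul 2).add (hhi.const_mul 2)).mono'
    ((hf.sub hh).norm.pow 2).aestronglyMeasurable (Eventually.of_forall fun x => ?_)
  rw [Real.norm_of_nonneg (sq_nonneg _)]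
  change ‖f x - h x‖ ^ 2 ≤ 2 * ‖f x‖ ^ 2 + 2 * ‖h x‖ ^ 2
  have h1 := norm_sub_le (f x) (h x)
  have h2 : ‖f x - h x‖ ^ 2 ≤ (‖f x‖ + ‖h x‖) ^ 2 := pow_le_pow_left₀ (norm_nonneg _) h1 2
  have h3 : (‖f x‖ + ‖h x‖) ^ 2 ≤ 2 * ‖f x‖ ^ 2 + 2 * ‖h x‖ ^ 2 := by
    have := sq_nonneg (‖f x‖ - ‖h x‖)
    linarith [this, sub_sq ‖f x‖ ‖h x‖, add_sq ‖f x‖ ‖h x‖]
  exact h2.trans h3

theorem l2tri {h : E3 → X} (hf : Continuous f) (hh : Continuous h)
    (hfi : Integrable (fun x => ‖f x‖ ^ 2)) (hhi : Integrable (fun x => ‖h x‖ ^ 2)) :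
    ∫ x, ‖f x - h x‖ ^ 2 ≤ 2 * (∫ x, ‖f x‖ ^ 2) + 2 * ∫ x, ‖h x‖ ^ 2 := by
  rw [← integral_const_mul, ← integral_const_mul,
    ← integral_add (hfi.const_mul 2) (hhi.const_mul 2)]
  refine integral_mono (l2sub hf hh hfi hhi) ((hfi.const_mul 2).add (hhi.const_mul 2)) fun x => ?_
  change ‖f x - h x‖ ^ 2 ≤ 2 * ‖f x‖ ^ 2 + 2 * ‖h x‖ ^ 2
  have h1 := norm_sub_le (f x) (h x)
  have h2 : ‖f x - h x‖ ^ 2 ≤ (‖f x‖ + ‖h x‖) ^ 2 := pow_le_pow_left₀ (norm_nonneg _) h1 2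
  have h3 : (‖f x‖ + ‖h x‖) ^ 2 ≤ 2 * ‖f x‖ ^ 2 + 2 * ‖h x‖ ^ 2 := by
    have := sq_nonneg (‖f x‖ - ‖h x‖)
    linarith [this, sub_sq ‖f x‖ ‖h x‖, add_sq ‖f x‖ ‖h x‖]
  exact h2.trans h3

/-- domination by a product of square integrable functions -/
theorem l2dom {Z : Type*} [NormedAddCommGroup Z] {k : E3 → Z} (hk : Continuous k)
    (hf : Continuous f) (hg : Continuous g) (hfi : Integrable (fun x => ‖f x‖ ^ 2))
    (hgi : Integrable (fun x => ‖g x‖ ^ 2)) (C : ℝ) (h : ∀ x, ‖k x‖ ≤ C * (‖f x‖ * ‖g x‖)) :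
    Integrable k :=
  ((l2mul hf hg hfi hgi).const_mul C).mono' hk.aestronglyMeasurable (Eventually.of_forall h)

end l2

theorem inner_l2 {f g : E3 → E3} (hf : Continuous f) (hg : Continuous g)
    (hfi : Integrable (fun x => ‖f x‖ ^ 2)) (hgi : Integrable (fun x => ‖g x‖ ^ 2)) :
    Integrable (fun x => inner ℝ (f x) (g x)) :=
  l2dom (hf.inner hg) hf hg hfi hgi 1 fun x => by
    rw [one_mul]
    exact norm_inner_le_norm _ _

/-- pairing -/
theorem pairR {G f : E3 → E3}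
    (hGi : Integrable (fun x => ‖G x‖ ^ 2)) (hfi : Integrable (fun x => ‖f x‖ ^ 2)) {δ : ℝ}
    (hδ : 0 < δ) :
    |∫ x, inner ℝ (G x) (f x)| ≤ δ * (∫ x, ‖G x‖ ^ 2) + δ⁻¹ * ∫ x, ‖f x‖ ^ 2 := by
  have h1 : ‖∫ x, inner ℝ (G x) (f x)‖ ≤ ∫ x, (δ * ‖G x‖ ^ 2 + δ⁻¹ * ‖f x‖ ^ 2) := by
    refine norm_integral_le_of_norm_le ((hGi.const_mul δ).add (hfi.const_mul δ⁻¹))
      (Eventually.of_forall fun x => ?_)
    refine (norm_inner_le_norm _ _).trans ?_
    change ‖G x‖ * ‖f x‖ ≤ δ * ‖G x‖ ^ 2 + δ⁻¹ * ‖f x‖ ^ 2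
    have h2 : 0 ≤ δ * (‖G x‖ - δ⁻¹ * ‖f x‖) ^ 2 := mul_nonneg hδ.le (sq_nonneg _)
    have h3 : δ * (‖G x‖ - δ⁻¹ * ‖f x‖) ^ 2 =
        δ * ‖G x‖ ^ 2 + δ⁻¹ * ‖f x‖ ^ 2 - 2 * (‖G x‖ * ‖f x‖) := by
      field_simp
      ring
    have h4 : 0 ≤ ‖G x‖ * ‖f x‖ := mul_nonneg (norm_nonneg _) (norm_nonneg _)
    linarith
  rw [Real.norm_eq_abs, integral_add (hGi.const_mul δ) (hfi.const_mul δ⁻¹), integral_const_mul,
    integral_const_mul] at h1
  exact h1

/-! ### Fields in `H²` -/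

/-- smooth fields in `H²` -/
structure H2 (w : E3 → E3) : Prop where
  smooth : ContDiff ℝ (⊤ : ℕ∞) w
  i0 : Integrable (fun x => ‖w x‖ ^ 2)
  i1 : Integrable (fun x => ‖fderiv ℝ w x‖ ^ 2)
  i2 : Integrable (fun x => ‖fderiv ℝ (fderiv ℝ w) x‖ ^ 2)

section h2

variable {u v w φ : E3 → E3} {M ν : ℝ}

theorem H2.c0 (h : H2 w) : Continuous w := h.smooth.continuous

theorem H2.s1 (h : H2 w) : ContDiff ℝ (⊤ : ℕ∞) (fderiv ℝ w) :=
  h.smooth.fderiv_right (by simp)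

theorem H2.c1 (h : H2 w) : Continuous (fderiv ℝ w) := h.s1.continuous

theorem H2.c2 (h : H2 w) : Continuous (fderiv ℝ (fderiv ℝ w)) :=
  h.s1.continuous_fderiv (by simp)

theorem H2.d0 (h : H2 w) : Differentiable ℝ w := h.smooth.differentiable (by simp)

theorem H2.d1 (h : H2 w) : Differentiable ℝ (fderiv ℝ w) := h.s1.differentiable (by simp)

theorem H2.e1 (hu : H2 u) (hv : H2 v) :
    fderiv ℝ (fun x => u x - v x) = fun x => fderiv ℝ u x - fderiv ℝ v x := by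
  funext x
  exact fderiv_fun_sub (hu.d0 x) (hv.d0 x)

theorem H2.e2 (hu : H2 u) (hv : H2 v) : fderiv ℝ (fderiv ℝ (fun x => u x - v x)) =
    fun x => fderiv ℝ (fderiv ℝ u) x - fderiv ℝ (fderiv ℝ v) x := by
  rw [H2.e1 hu hv]
  funext x
  exact fderiv_fun_sub (hu.d1 x) (hv.d1 x)

theorem H2.sub (hu : H2 u) (hv : H2 v) : H2 (fun x => u x - v x) where
  smooth := hu.smooth.sub hv.smooth
  i0 := l2sub hu.c0 hv.c0 hu.i0 hv.i0
  i1 := by
    have h := l2sub (X := E3 →L[ℝ] E3) hu.c1 hv.c1 hu.i1 hv.i1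
    have e : (fun x => ‖fderiv ℝ (fun x => u x - v x) x‖ ^ 2) =
        fun x => ‖fderiv ℝ u x - fderiv ℝ v x‖ ^ 2 := by
      funext x
      rw [H2.e1 hu hv]
    rw [e]
    exact h
  i2 := by
    have h := l2sub (X := E3 →L[ℝ] E3 →L[ℝ] E3) hu.c2 hv.c2 hu.i2 hv.i2
    have e : (fun x => ‖fderiv ℝ (fderiv ℝ (fun x => u x - v x)) x‖ ^ 2) =
        fun x => ‖fderiv ℝ (fderiv ℝ u) x - fderiv ℝ (fderiv ℝ v) x‖ ^ 2 := by
      funext x
      rw [H2.e2 hu hv]
    rw [e]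
    exact h

theorem lap_norm (w : E3 → E3) (x : E3) : ‖Lap w x‖ ≤ 3 * ‖fderiv ℝ (fderiv ℝ w) x‖ :=
  lap_bd (Ω := {x}) (M := ‖fderiv ℝ (fderiv ℝ w) x‖)
    (fun y hy => by rw [mem_singleton_iff.1 hy]) x rfl

theorem H2.lapc (h : H2 w) : Continuous (Lap w) := by
  unfold Lap
  exact continuous_finsetSum _ fun i _ =>
    (h.c2.clm_apply continuous_const).clm_apply continuous_const

theorem H2.lapi (h : H2 w) : Integrable (fun x => ‖Lap w x‖ ^ 2) := by
  refine (h.i2.const_mul 9).mono' (h.lapc.norm.pow 2).aestronglyMeasurable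
    (Eventually.of_forall fun x => ?_)
  rw [Real.norm_of_nonneg (sq_nonneg _)]
  have h1 : ‖Lap w x‖ ^ 2 ≤ (3 * ‖fderiv ℝ (fderiv ℝ w) x‖) ^ 2 :=
    pow_le_pow_left₀ (norm_nonneg _) (lap_norm w x) 2
  refine h1.trans (le_of_eq ?_)
  ring

/-- derivatives in a direction -/
theorem H2.di (h : H2 w) (i : Fin 3) : Continuous (fun x => fderiv ℝ w x (cv i)) ∧
    Integrable (fun x => ‖fderiv ℝ w x (cv i)‖ ^ 2) := by
  have hc : Continuous (fun x => fderiv ℝ w x (cv i)) := h.c1.clm_apply continuous_const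
  refine ⟨hc, h.i1.mono' (hc.norm.pow 2).aestronglyMeasurable (Eventually.of_forall fun x => ?_)⟩
  rw [Real.norm_of_nonneg (sq_nonneg _)]
  refine pow_le_pow_left₀ (norm_nonneg _) ?_ 2
  refine (ContinuousLinearMap.le_opNorm _ _).trans ?_
  rw [cv_norm, mul_one]

theorem H2.dii (h : H2 w) (i : Fin 3) :
    Continuous (fun x => fderiv ℝ (fderiv ℝ w) x (cv i) (cv i)) ∧
    Integrable (fun x => ‖fderiv ℝ (fderiv ℝ w) x (cv i) (cv i)‖ ^ 2) := by
  have hc : Continuous (fun x => fderiv ℝ (fderiv ℝ w) x (cv i) (cv i)) :=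
    (h.c2.clm_apply continuous_const).clm_apply continuous_const
  refine ⟨hc, h.i2.mono' (hc.norm.pow 2).aestronglyMeasurable (Eventually.of_forall fun x => ?_)⟩
  rw [Real.norm_of_nonneg (sq_nonneg _)]
  refine pow_le_pow_left₀ (norm_nonneg _) ?_ 2
  refine (ContinuousLinearMap.le_opNorm _ _).trans ?_
  rw [cv_norm, mul_one]
  refine (ContinuousLinearMap.le_opNorm _ _).trans ?_
  rw [cv_norm, mul_one]

/-- the sign of the Laplacian -/
theorem lap_neg (h : H2 w) : ∫ x, inner ℝ (Lap w x) (w x) ≤ 0 := by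
  have hpt : ∀ (i : Fin 3) (x : E3),
      innerSL ℝ (fderiv ℝ (fun y => fderiv ℝ w y (cv i)) x (cv i)) (w x) =
        inner ℝ (fderiv ℝ (fderiv ℝ w) x (cv i) (cv i)) (w x) := by
    intro i x
    have h2 := ((ContinuousLinearMap.apply ℝ E3 (cv i)).hasFDerivAt.comp x
      (h.d1 x).hasFDerivAt).fderiv
    have h3 : fderiv ℝ (fun y => fderiv ℝ w y (cv i)) x =
        (ContinuousLinearMap.apply ℝ E3 (cv i)).comp (fderiv ℝ (fderiv ℝ w) x) := h2
    rw [h3]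
    rfl
  have hi2 : ∀ i : Fin 3,
      Integrable (fun x => inner ℝ (fderiv ℝ (fderiv ℝ w) x (cv i) (cv i)) (w x)) := fun i =>
    inner_l2 (h.dii i).1 h.c0 (h.dii i).2 h.i0
  have key : ∀ i : Fin 3, ∫ x, inner ℝ (fderiv ℝ (fderiv ℝ w) x (cv i) (cv i)) (w x) ≤ 0 := by
    intro i
    have h4 := integral_bilinear_fderiv_right_eq_neg_left_of_integrable
      (μ := (volume : Measure E3)) (f := fun x => fderiv ℝ w x (cv i)) (g := w) (v := cv i)
      (B := innerSL ℝ) (by simpa only [hpt] using hi2 i)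
      (inner_l2 (h.di i).1 (h.di i).1 (h.di i).2 (h.di i).2)
      (inner_l2 (h.di i).1 h.c0 (h.di i).2 h.i0)
      (fun x _ => (h.d1 x).clm_apply (differentiableAt_const _))
      (fun x _ => h.d0 x)
    simp only [hpt] at h4
    have h5 : 0 ≤ ∫ x, innerSL ℝ (fderiv ℝ w x (cv i)) (fderiv ℝ w x (cv i)) :=
      integral_nonneg fun x => (real_inner_self_nonneg :
        0 ≤ inner ℝ (fderiv ℝ w x (cv i)) (fderiv ℝ w x (cv i)))
    linarith
  have e1 : ∀ x, inner ℝ (Lap w x) (w x) =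
      ∑ i : Fin 3, inner ℝ (fderiv ℝ (fderiv ℝ w) x (cv i) (cv i)) (w x) := by
    intro x
    unfold Lap
    rw [sum_inner]
  simp only [e1]
  rw [integral_finsetSum _ fun i _ => hi2 i]
  exact Finset.sum_nonpos fun i _ => key i

theorem coord_fd (hv : Differentiable ℝ v) (j : Fin 3) (x y : E3) :
    fderiv ℝ (fun z => v z j) x y = (fderiv ℝ v x y) j := by
  have h2 := ((EuclideanSpace.proj j : E3 →L[ℝ] ℝ).hasFDerivAt.comp x
    (hv x).hasFDerivAt).fderiv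
  have h3 : fderiv ℝ (fun z => v z j) x =
      (EuclideanSpace.proj j : E3 →L[ℝ] ℝ).comp (fderiv ℝ v x) := h2
  rw [h3]
  rfl

theorem sumcv (y : E3) : ∑ j : Fin 3, y j • cv j = y := by
  ext k
  fin_cases k <;> simp [Fin.sum_univ_three]

theorem coord_le (y : E3) (j : Fin 3) : |y j| ≤ ‖y‖ := by
  have := PiLp.norm_apply_le y j
  rwa [Real.norm_eq_abs] at this

/-- transport by a bounded divergence free field -/
theorem transportR (h : H2 w) (hv : ContDiff ℝ (⊤ : ℕ∞) v)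
    (hdv : ∀ x, dvg v x = 0) (b0 : ∀ x, ‖v x‖ ≤ M) (b1 : ∀ x, ‖fderiv ℝ v x‖ ≤ M) :
    ∫ x, inner ℝ (fderiv ℝ w x (v x)) (w x) = 0 := by
  have hvd : Differentiable ℝ v := hv.differentiable (by simp)
  have hvc : Continuous v := hv.continuous
  have hv1 : Continuous (fderiv ℝ v) := hv.continuous_fderiv (by simp)
  have hqc : Continuous (fun x => inner ℝ (w x) (w x)) := h.c0.inner h.c0
  have hjc : ∀ j : Fin 3, Continuous (fun x => v x j) := fun j =>
    (EuclideanSpace.proj j : E3 →L[ℝ] ℝ).continuous.comp hvc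
  have hdc : ∀ j : Fin 3, Continuous (fun x => fderiv ℝ (fun z => v z j) x (cv j)) := fun j => by
    have e : (fun x => fderiv ℝ (fun z => v z j) x (cv j)) =
        fun x => (fderiv ℝ v x (cv j)) j := by
      funext x; exact coord_fd hvd j x (cv j)
    rw [e]
    exact (EuclideanSpace.proj j : E3 →L[ℝ] ℝ).continuous.comp (hv1.clm_apply continuous_const)
  have hdb : ∀ (j : Fin 3) (x : E3), |fderiv ℝ (fun z => v z j) x (cv j)| ≤ M := by
    intro j x
    rw [coord_fd hvd j x (cv j)]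
    refine (coord_le _ _).trans ?_
    refine (ContinuousLinearMap.le_opNorm _ _).trans ?_
    rw [cv_norm, mul_one]
    exact b1 x
  have hqf : ∀ x y, fderiv ℝ (fun z => inner ℝ (w z) (w z)) x y =
      2 * inner ℝ (fderiv ℝ w x y) (w x) := by
    intro x y
    rw [fderiv_inner_apply ℝ (h.d0 x) (h.d0 x), real_inner_comm]
    ring
  have hww : ∀ x, |inner ℝ (w x) (w x)| ≤ ‖w x‖ * ‖w x‖ := fun x => abs_real_inner_le_norm _ _
  have I1 : ∀ j : Fin 3, Integrable (fun x => inner ℝ (w x) (w x) *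
      fderiv ℝ (fun z => v z j) x (cv j)) := fun j =>
    l2dom (hqc.mul (hdc j)) h.c0 h.c0 h.i0 h.i0 M fun x => by
      rw [norm_mul, Real.norm_eq_abs, Real.norm_eq_abs, mul_comm M]
      exact mul_le_mul (hww x) (hdb j x) (abs_nonneg _)
        (mul_nonneg (norm_nonneg _) (norm_nonneg _))
  have I3 : ∀ j : Fin 3, Integrable (fun x => inner ℝ (w x) (w x) * v x j) := fun j =>
    l2dom (hqc.mul (hjc j)) h.c0 h.c0 h.i0 h.i0 M fun x => by
      rw [norm_mul, Real.norm_eq_abs, Real.norm_eq_abs, mul_comm M]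
      exact mul_le_mul (hww x) ((coord_le _ _).trans (b0 x)) (abs_nonneg _)
        (mul_nonneg (norm_nonneg _) (norm_nonneg _))
  have I2 : ∀ j : Fin 3, Integrable (fun x => fderiv ℝ (fun z => inner ℝ (w z) (w z)) x (cv j) *
      v x j) := fun j => by
    have e : (fun x => fderiv ℝ (fun z => inner ℝ (w z) (w z)) x (cv j) * v x j) =
        fun x => 2 * inner ℝ (fderiv ℝ w x (cv j)) (w x) * v x j := by
      funext x
      rw [hqf]
    rw [e]
    refine l2dom ((continuous_const.mul ((h.di j).1.inner h.c0)).mul (hjc j)) (h.di j).1 h.c0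
      (h.di j).2 h.i0 (2 * M) fun x => ?_
    rw [norm_mul, norm_mul, Real.norm_eq_abs, Real.norm_eq_abs, Real.norm_eq_abs, abs_two]
    have h6 : |inner ℝ (fderiv ℝ w x (cv j)) (w x)| * |v x j| ≤
        ‖fderiv ℝ w x (cv j)‖ * ‖w x‖ * M :=
      mul_le_mul (abs_real_inner_le_norm _ _) ((coord_le _ _).trans (b0 x)) (abs_nonneg _)
        (mul_nonneg (norm_nonneg _) (norm_nonneg _))
    have h7 : 2 * |inner ℝ (fderiv ℝ w x (cv j)) (w x)| * |v x j| =
        2 * (|inner ℝ (fderiv ℝ w x (cv j)) (w x)| * |v x j|) := by ring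
    have h8 : 2 * M * (‖fderiv ℝ w x (cv j)‖ * ‖w x‖) =
        2 * (‖fderiv ℝ w x (cv j)‖ * ‖w x‖ * M) := by ring
    rw [h7, h8]
    exact mul_le_mul_of_nonneg_left h6 (by norm_num)
  have key : ∀ j : Fin 3, ∫ x, inner ℝ (w x) (w x) * fderiv ℝ (fun z => v z j) x (cv j) =
      -∫ x, fderiv ℝ (fun z => inner ℝ (w z) (w z)) x (cv j) * v x j := by
    intro j
    refine integral_mul_fderiv_eq_neg_fderiv_mul_of_integrable (I2 j) (I1 j) (I3 j) ?_ ?_
    · intro x _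
      exact (h.d0 x).inner ℝ (h.d0 x)
    · intro x _
      exact (EuclideanSpace.proj j : E3 →L[ℝ] ℝ).differentiableAt.comp x (hvd x)
  have hL : ∑ j : Fin 3, ∫ x, inner ℝ (w x) (w x) * fderiv ℝ (fun z => v z j) x (cv j) = 0 := by
    rw [← integral_finsetSum _ fun j _ => I1 j]
    have : ∀ x, ∑ j : Fin 3, inner ℝ (w x) (w x) * fderiv ℝ (fun z => v z j) x (cv j) = 0 := by
      intro x
      rw [← Finset.mul_sum, Finset.sum_congr rfl fun j _ => coord_fd hvd j x (cv j)]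
      have := hdv x
      unfold dvg at this
      rw [this, mul_zero]
    simp only [this, integral_zero]
  have hR : ∑ j : Fin 3, ∫ x, fderiv ℝ (fun z => inner ℝ (w z) (w z)) x (cv j) * v x j =
      2 * ∫ x, inner ℝ (fderiv ℝ w x (v x)) (w x) := by
    rw [← integral_finsetSum _ fun j _ => I2 j, ← integral_const_mul]
    congr 1
    funext x
    rw [Finset.sum_congr rfl fun j _ => by rw [hqf x (cv j)]]
    conv_rhs => rw [← sumcv (v x)]
    rw [map_sum, sum_inner, Finset.mul_sum]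
    refine Finset.sum_congr rfl fun j _ => ?_
    rw [map_smul, real_inner_smul_left]
    ring
  rw [Finset.sum_congr rfl fun j _ => key j, Finset.sum_neg_distrib, hR] at hL
  linarith

end h2

end Pool.Agent.Y93.SK
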